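import Pool.Agent.Helper68.OP.Y2
import Pool.Agent.Helper68.OP.M
import Pool.Agent.Helper68.OP.C2

/-!
# OPF-A: linear characters of the whole group; weights invariant under conjugation
-/

namespace SB

universe u v

section
variable {Γ : Type u} [Group Γ]

/-- The group generated by `PD D` and the linear characters of `Γ`, trivial on a member of `D.N`. -/
def LPD (D : Sys Γ) : AddSubgroup (Γ → ℂ) :=
  PD D ⊔ AddSubgroup.closure {v | ∃ η : Γ →* ℂˣ, (∃ M ∈ D.N, ∀ g ∈ M, η g = 1) ∧ v = fun g => ((η g : ℂˣ) : ℂ)}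

/-- The character `ε` of the group generated by `S` is constant on the classes in `S`. -/
def InvW (D : Sys Γ) (ε : Subgroup.closure D.S →* ℂˣ) : Prop :=
  ∀ (s : Γ) (hs : s ∈ D.S) (g : Γ), ε ⟨g * s * g⁻¹, Subgroup.subset_closure (D.conj s hs g)⟩ =
    ε ⟨s, Subgroup.subset_closure hs⟩

theorem pd_le_lpd (D : Sys Γ) : PD D ≤ LPD D := le_sup_left

theorem lin_mem_lpd (D : Sys Γ) {η : Γ →* ℂˣ} (h : ∃ M ∈ D.N, ∀ g ∈ M, η g = 1) :
    (fun g => ((η g : ℂˣ) : ℂ)) ∈ LPD D :=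
  AddSubgroup.mem_sup_right (AddSubgroup.subset_closure ⟨η, h, rfl⟩)

theorem pdp_le_lpd (D : Sys Γ) (hne : D.N.Nonempty) {θ : Γ →* ℂˣ} (hθ : Sgn D θ) : PDp D θ ≤ LPD D := by
  unfold PDp
  refine sup_le (pd_le_lpd D) ((AddSubgroup.closure_le _).2 ?_)
  rintro v (rfl | rfl)
  · obtain ⟨M, hM⟩ := hne
    have h := lin_mem_lpd D (η := 1) ⟨M, hM, fun _ _ => rfl⟩
    simpa using h
  · exact lin_mem_lpd D hθ.1

/-- Explicit form of the elements of `LPD`. -/
theorem lpd_explicit (D : Sys Γ) {v : Γ → ℂ} (h : v ∈ LPD D) :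
    ∃ (m : ℕ) (n : Fin m → ℤ) (η : Fin m → (Γ →* ℂˣ)), (∀ i, ∃ M ∈ D.N, ∀ g ∈ M, η i g = 1) ∧
      (fun g => v g - ∑ i, (n i : ℂ) * ((η i g : ℂˣ) : ℂ)) ∈ PD D := by
  obtain ⟨y, hy, z, hz, rfl⟩ := AddSubgroup.mem_sup.1 h
  have key : ∃ (m : ℕ) (n : Fin m → ℤ) (η : Fin m → (Γ →* ℂˣ)), (∀ i, ∃ M ∈ D.N, ∀ g ∈ M, η i g = 1) ∧
      z = fun g => ∑ i, (n i : ℂ) * ((η i g : ℂˣ) : ℂ) := by
    clear h
    induction hz using AddSubgroup.closure_induction with
    | mem z hz =>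
      obtain ⟨η, h1, rfl⟩ := hz
      exact ⟨1, fun _ => 1, fun _ => η, fun _ => h1, by simp⟩
    | zero => exact ⟨0, fun i => i.elim0, fun i => i.elim0, fun i => i.elim0, by funext g; simp⟩
    | add a b _ _ ha hb =>
      obtain ⟨m, n, η, h1, rfl⟩ := ha
      obtain ⟨m', n', η', h1', rfl⟩ := hb
      refine ⟨m + m', Fin.append n n', Fin.append η η', fun i => ?_, ?_⟩
      · refine Fin.addCases (fun j => ?_) (fun j => ?_) i
        · rw [Fin.append_left]; exact h1 j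
        · rw [Fin.append_right]; exact h1' j
      · funext g
        rw [Pi.add_apply, Fin.sum_univ_add]
        simp only [Fin.append_left, Fin.append_right]
    | neg a _ ha =>
      obtain ⟨m, n, η, h1, rfl⟩ := ha
      refine ⟨m, fun i => -n i, η, h1, ?_⟩
      funext g
      rw [Pi.neg_apply, ← Finset.sum_neg_distrib]
      exact Finset.sum_congr rfl fun i _ => by push_cast; ring
  obtain ⟨m, n, η, h1, rfl⟩ := key
  refine ⟨m, n, η, h1, ?_⟩
  have e : (fun g => (y + fun g => ∑ i, (n i : ℂ) * ((η i g : ℂˣ) : ℂ)) g - ∑ i, (n i : ℂ) * ((η i g : ℂˣ) : ℂ)) = y := by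
    funext g
    rw [Pi.add_apply, add_sub_cancel_right]
  rw [e]
  exact hy

theorem lpd_of_explicit (D : Sys Γ) {v : Γ → ℂ} {m : ℕ} (n : Fin m → ℤ) (η : Fin m → (Γ →* ℂˣ))
    (hη : ∀ i, ∃ M ∈ D.N, ∀ g ∈ M, η i g = 1)
    (h : (fun g => v g - ∑ i, (n i : ℂ) * ((η i g : ℂˣ) : ℂ)) ∈ PD D) : v ∈ LPD D := by
  have h1 : (∑ i, n i • fun g => ((η i g : ℂˣ) : ℂ)) ∈ LPD D :=
    AddSubgroup.sum_mem _ fun i _ => AddSubgroup.zsmul_mem _ (lin_mem_lpd D (hη i)) _
  have h2 := AddSubgroup.add_mem _ (pd_le_lpd D h) h1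
  refine (congrArg (· ∈ LPD D) (funext fun g => ?_)).mp h2
  rw [Pi.add_apply, Finset.sum_apply]
  simp only [Pi.smul_apply, zsmul_eq_mul]
  rw [sub_add_cancel]

theorem invW_cjh (D : Sys Γ) {ε : Subgroup.closure D.S →* ℂˣ} (h : InvW D ε) (g : Γ) :
    cjh (closure_normal D) g ε = ε := by
  have key : ∀ c (hc : c ∈ Subgroup.closure D.S), cjh (closure_normal D) g ε ⟨c, hc⟩ = ε ⟨c, hc⟩ := by
    intro c hc
    induction hc using Subgroup.closure_induction with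
    | mem s hs =>
      have h1 := h _ (D.conj s hs g⁻¹) g
      have e1 : g * (g⁻¹ * s * g⁻¹⁻¹) * g⁻¹ = s := by group
      have e2 : g⁻¹ * s * g⁻¹⁻¹ = g⁻¹ * s * g := by group
      rw [cjh_apply _ _ _ _ (by rw [← e2]; exact Subgroup.subset_closure (D.conj s hs g⁻¹))]
      have e3 : (⟨g⁻¹ * s * g, by rw [← e2]; exact Subgroup.subset_closure (D.conj s hs g⁻¹)⟩ :
          Subgroup.closure D.S) = ⟨g⁻¹ * s * g⁻¹⁻¹, Subgroup.subset_closure (D.conj s hs g⁻¹)⟩ := Subtype.ext e2.symm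
      rw [e3, ← h1]
      congr 1
      exact Subtype.ext e1
    | one => exact (map_one _).trans (map_one ε).symm
    | mul a b ha hb h1 h2 =>
      have e : (⟨a * b, mul_mem ha hb⟩ : Subgroup.closure D.S) = ⟨a, ha⟩ * ⟨b, hb⟩ := rfl
      rw [e, map_mul, map_mul, h1, h2]
    | inv a ha h1 =>
      have e : (⟨a⁻¹, inv_mem ha⟩ : Subgroup.closure D.S) = ⟨a, ha⟩⁻¹ := rfl
      rw [e, map_inv, map_inv, h1]
  exact MonoidHom.ext fun c => key c c.2

theorem cjh_invW (D : Sys Γ) {ε : Subgroup.closure D.S →* ℂˣ} (h : ∀ g, cjh (closure_normal D) g ε = ε) :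
    InvW D ε := by
  intro s hs g
  have h1 := DFunLike.congr_fun (h g) ⟨g * s * g⁻¹, Subgroup.subset_closure (D.conj s hs g)⟩
  have e1 : g⁻¹ * (g * s * g⁻¹) * g = s := by group
  rw [cjh_apply _ _ _ _ (by change g⁻¹ * (g * s * g⁻¹) * g ∈ _; rw [e1]; exact Subgroup.subset_closure hs)] at h1
  rw [← h1]
  congr 1
  exact Subtype.ext e1

theorem invW_of_const (D : Sys Γ) {ε : Subgroup.closure D.S →* ℂˣ}
    (h : ∀ (s s' : Subgroup.closure D.S), (s : Γ) ∈ D.S → (s' : Γ) ∈ D.S → ε s = ε s') : InvW D ε :=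
  fun s hs g => h _ _ (D.conj s hs g) hs

theorem invW_th (D : Sys Γ) (θ : Γ →* ℂˣ) {ε : Subgroup.closure D.S →* ℂˣ} (h : InvW D ε) :
    InvW D (ε * thC D θ) := by
  intro s hs g
  rw [MonoidHom.mul_apply, MonoidHom.mul_apply, h s hs g, thC_apply, thC_apply]
  congr 1
  change θ (g * s * g⁻¹) = θ s
  rw [map_mul, map_mul, map_inv, mul_comm, inv_mul_cancel_left]

end

section
variable {Γ : Type u} [Group Γ] {V : Type v} [AddCommGroup V] [Module ℂ V]

private theorem finrank_wt_le_A [FiniteDimensional ℂ V] (ρ : Γ →* (V →ₗ[ℂ] V)) {C : Subgroup Γ} (hC : C.Normal)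
    (g : Γ) (ε : C →* ℂˣ) : Module.finrank ℂ (Wt ρ C ε) ≤ Module.finrank ℂ (Wt ρ C (cjh hC g ε)) := by
  have hinj : Function.Injective ((ρ g).restrict (wt_move ρ hC g ε)) := by
    intro x y hxy
    have h1 : ρ g (x : V) = ρ g (y : V) := congrArg Subtype.val hxy
    have h2 : ∀ v : V, ρ g⁻¹ (ρ g v) = v := by
      intro v
      rw [← Module.End.mul_apply, ← map_mul, inv_mul_cancel, map_one]
      rfl
    apply Subtype.ext
    rw [← h2 x, h1, h2]
  exact LinearMap.finrank_le_finrank_of_injective hinj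

theorem finrank_wt_cjh_A [FiniteDimensional ℂ V] (ρ : Γ →* (V →ₗ[ℂ] V)) {C : Subgroup Γ} (hC : C.Normal)
    (g : Γ) (ε : C →* ℂˣ) : Module.finrank ℂ (Wt ρ C (cjh hC g ε)) = Module.finrank ℂ (Wt ρ C ε) := by
  apply le_antisymm _ (finrank_wt_le_A ρ hC g ε)
  have h := finrank_wt_le_A ρ hC g⁻¹ (cjh hC g ε)
  rwa [← cjh_mul, inv_mul_cancel, cjh_one] at h

/-- The function induced from a linear character of the whole group. -/
theorem ind_top_ext (χ : (⊤ : Subgroup Γ) →* ℂˣ) :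
    Ind ⊤ (ext ⊤ χ) = fun g => ((χ ⟨g, Subgroup.mem_top g⟩ : ℂˣ) : ℂ) := by
  funext g
  unfold Ind
  have hu : Unique (Γ ⧸ (⊤ : Subgroup Γ)) := by
    have : Subsingleton (Γ ⧸ (⊤ : Subgroup Γ)) := QuotientGroup.subsingleton_quotient_top
    exact Unique.mk' _
  have e3 : ∀ o : Γ, ((χ ⟨o⁻¹ * g * o, Subgroup.mem_top _⟩ : ℂˣ) : ℂ) = ((χ ⟨g, Subgroup.mem_top g⟩ : ℂˣ) : ℂ) := by
    intro o
    have e : (⟨o⁻¹ * g * o, Subgroup.mem_top _⟩ : (⊤ : Subgroup Γ)) =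
        ⟨o, Subgroup.mem_top _⟩⁻¹ * ⟨g, Subgroup.mem_top g⟩ * ⟨o, Subgroup.mem_top _⟩ := rfl
    rw [e, map_mul, map_mul, map_inv, mul_comm, mul_inv_cancel_left]
  rw [finsum_unique, ext_mem _ (Subgroup.mem_top _)]
  exact e3 _

/-- A representation which is diagonalizable on the group generated by `S`, with equal multiplicities of the
weights `ε` and `ε θ` if `ε` is not invariant. -/
theorem lx_main' [FiniteDimensional ℂ V] (D : Sys Γ)
    (hup : ∀ M ∈ D.N, ∀ M' : Subgroup Γ, M'.Normal → M ≤ M' → M' ∈ D.N) (hnt : NtU D) (hS : D.S.Nonempty)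
    {θ : Γ →* ℂˣ} (hθ : Sgn D θ) {M : Subgroup Γ} (hM : M ∈ D.N) (ρ : Γ →* (V →ₗ[ℂ] V)) (h : ∀ g ∈ M, ρ g = 1)
    (s : ⨆ ε : Subgroup.closure D.S →* ℂˣ, Wt ρ (Subgroup.closure D.S) ε = ⊤)
    (hm : ∀ ε : Subgroup.closure D.S →* ℂˣ, ¬ InvW D ε →
      Module.finrank ℂ (Wt ρ (Subgroup.closure D.S) ε) =
        Module.finrank ℂ (Wt ρ (Subgroup.closure D.S) (ε * thC D θ))) :
    (fun g => LinearMap.trace ℂ V (ρ g)) ∈ LPD D := by
  obtain ⟨m, U, ε, χ, f, hj, ht, hf, hg⟩ := weights_tw D hnt hθ hM ρ h s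
  have hC : (Subgroup.closure D.S).Normal := closure_normal D
  have hle : PDp D θ ≤ LPD D := pdp_le_lpd D ⟨M, hM⟩ hθ
  have hSU : ∀ j, D.S ⊆ U j := by
    intro j c hc
    exact ((hj j).1 c).2 (cjh_self hC (Subgroup.subset_closure hc) _)
  -- the class of the trace
  have hterm : ∀ j, Ind (U j) (trx ρ (U j) (Wt ρ (Subgroup.closure D.S) (ε j))) -
      Module.finrank ℂ (Wt ρ (Subgroup.closure D.S) (ε j)) • Ind (U j) (ext (U j) (χ j)) ∈ LPD D := by
    intro j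
    obtain ⟨-, h2, h3, h4, h5, h6⟩ := hj j
    exact pd_le_lpd D (wt_term D hup hM h2 (hSU j) ρ h h3 h4 h5 h6)
  -- invariant weights
  have hinv : ∀ j, InvW D (ε j) → Ind (U j) (ext (U j) (χ j)) ∈ LPD D := by
    intro j hi
    obtain ⟨h1, -, ⟨M', hM', -, h3⟩, -, -, -⟩ := hj j
    have hU : U j = ⊤ := by
      rw [eq_top_iff]
      intro g _
      exact (h1 g).2 (invW_cjh D hi g)
    have key : ∀ (W : Subgroup Γ) (hW : W = ⊤) (ξ : W →* ℂˣ), (∀ g (h : g ∈ W), g ∈ M' → ξ ⟨g, h⟩ = 1) →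
        Ind W (ext W ξ) ∈ LPD D := by
      intro W hW ξ hξ
      subst hW
      rw [ind_top_ext]
      let η : Γ →* ℂˣ := ξ.comp (Subgroup.topEquiv (G := Γ)).symm.toMonoidHom
      exact lin_mem_lpd D (η := η) ⟨M', hM', fun g hg => hξ g (Subgroup.mem_top g) hg⟩
    exact key (U j) hU (χ j) h3
  -- the involution
  have hself : ∀ j, f j = j → Ind (U j) (ext (U j) (χ j)) ∈ LPD D := by
    intro j hfj
    obtain ⟨g, hg'⟩ := hg j
    rw [hfj] at hg'
    obtain ⟨h1, -, h3, -, h5, -⟩ := hj j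
    exact hle (lx_self D hup hθ hS h1 h3 h5 hg')
  have hpair : ∀ j, Module.finrank ℂ (Wt ρ (Subgroup.closure D.S) (ε j)) • Ind (U j) (ext (U j) (χ j)) +
      Module.finrank ℂ (Wt ρ (Subgroup.closure D.S) (ε (f j))) • Ind (U (f j)) (ext (U (f j)) (χ (f j))) ∈
        LPD D := by
    intro j
    obtain ⟨g, hg'⟩ := hg j
    obtain ⟨h1, -, h3, -, h5, -⟩ := hj j
    obtain ⟨k1, -, k3, -, k5, -⟩ := hj (f j)
    by_cases hc : InvW D (ε j)
    · have hc' : InvW D (ε (f j)) := by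
        have e1 : ε (f j) = cjh hC g⁻¹ (ε j * thC D θ) := by
          rw [← hg', ← cjh_mul, inv_mul_cancel, cjh_one]
        rw [e1, invW_cjh D (invW_th D θ hc)]
        exact invW_th D θ hc
      exact add_mem (nsmul_mem (hinv j hc) _) (nsmul_mem (hinv (f j) hc') _)
    · have hd : Module.finrank ℂ (Wt ρ (Subgroup.closure D.S) (ε j)) =
          Module.finrank ℂ (Wt ρ (Subgroup.closure D.S) (ε (f j))) := by
        rw [hm (ε j) hc, ← hg', finrank_wt_cjh_A]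
      rw [← hd, ← nsmul_add]
      exact nsmul_mem (hle (lx_pair D hup hθ h1 k1 h3 k3 h5 k5 hg')) _
  have hsum : ∑ j, Module.finrank ℂ (Wt ρ (Subgroup.closure D.S) (ε j)) • Ind (U j) (ext (U j) (χ j)) ∈ LPD D := by
    rw [← QuotientAddGroup.eq_zero_iff]
    rw [← QuotientAddGroup.mk'_apply, map_sum]
    refine Finset.sum_involution (fun j _ => f j) ?_ ?_ (fun _ _ => Finset.mem_univ _) (fun j _ => hf j)
    · intro j _
      rw [← map_add, QuotientAddGroup.mk'_apply, QuotientAddGroup.eq_zero_iff]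
      exact hpair j
    · intro j _ hne hfj
      apply hne
      rw [QuotientAddGroup.mk'_apply, QuotientAddGroup.eq_zero_iff]
      exact nsmul_mem (hself j hfj) _
  have hv : (fun g => LinearMap.trace ℂ V (ρ g)) =
      ∑ j, (Ind (U j) (trx ρ (U j) (Wt ρ (Subgroup.closure D.S) (ε j))) -
        Module.finrank ℂ (Wt ρ (Subgroup.closure D.S) (ε j)) • Ind (U j) (ext (U j) (χ j))) +
      ∑ j, Module.finrank ℂ (Wt ρ (Subgroup.closure D.S) (ε j)) • Ind (U j) (ext (U j) (χ j)) := by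
    rw [← Finset.sum_add_distrib]
    funext g
    rw [ht g, Finset.sum_apply]
    refine Finset.sum_congr rfl fun j _ => ?_
    rw [sub_add_cancel]
  rw [hv]
  exact add_mem (sum_mem fun j _ => hterm j) hsum

end

end SB
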