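import Pool.Agent.Helper68.OPF.A
import Pool.Agent.Helper68.OP.M2

/-!
# OPF-B: sums of odd planes and of subspaces on which the classes in `S` act by signs
-/

namespace SB

universe u v

variable {Γ : Type u} [Group Γ] {V : Type v} [AddCommGroup V] [Module ℂ V]

/-- For every class in `S`, all its elements are `1` on `Y`, or all of them are `-1` on `Y`. -/
def SignPc (ρ : Γ →* (V →ₗ[ℂ] V)) (S : Set Γ) (Y : Submodule ℂ V) : Prop :=
  ∀ s ∈ S, (∀ g, ∀ v ∈ Y, ρ (g * s * g⁻¹) v = v) ∨ ∀ g, ∀ v ∈ Y, ρ (g * s * g⁻¹) v = -v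

/-- `Y` is a plane on which all elements of `S` have trace zero. -/
def PlanePc (ρ : Γ →* (V →ₗ[ℂ] V)) (S : Set Γ) (Y : Submodule ℂ V) : Prop :=
  Module.finrank ℂ Y = 2 ∧ ∀ s ∈ S, ∃ h : ∀ v ∈ Y, ρ s v ∈ Y, LinearMap.trace ℂ Y ((ρ s).restrict h) = 0

theorem SignPc.sign {ρ : Γ →* (V →ₗ[ℂ] V)} {S : Set Γ} {Y : Submodule ℂ V} (h : SignPc ρ S Y) {s : Γ} (hs : s ∈ S) :
    (∀ v ∈ Y, ρ s v = v) ∨ ∀ v ∈ Y, ρ s v = -v := by
  have e : (1 : Γ) * s * 1⁻¹ = s := by group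
  rcases h s hs with h1 | h1
  · left
    intro v hv
    have := h1 1 v hv
    rwa [e] at this
  · right
    intro v hv
    have := h1 1 v hv
    rwa [e] at this

theorem SignPc.stable {ρ : Γ →* (V →ₗ[ℂ] V)} {S : Set Γ} {Y : Submodule ℂ V} (h : SignPc ρ S Y) :
    ∀ s ∈ S, ∀ v ∈ Y, ρ s v ∈ Y := by
  intro s hs v hv
  rcases h.sign hs with h1 | h1
  · rw [h1 v hv]; exact hv
  · rw [h1 v hv]; exact Y.neg_mem hv

theorem PlanePc.stable {ρ : Γ →* (V →ₗ[ℂ] V)} {S : Set Γ} {Y : Submodule ℂ V} (h : PlanePc ρ S Y) :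
    ∀ s ∈ S, ∀ v ∈ Y, ρ s v ∈ Y := by
  intro s hs
  obtain ⟨h1, -⟩ := h.2 s hs
  exact h1

/-- The irreducible subspaces of a direct sum of such subspaces. -/
theorem odd_irr' [FiniteDimensional ℂ V] (D : Sys Γ) (ρ : Γ →* (V →ₗ[ℂ] V)) {m : ℕ} {Y : Fin m → Submodule ℂ V}
    (hi : iSupIndep Y) (hs : ⨆ i, Y i = ⊤) (hY : ∀ i, SignPc ρ D.S (Y i) ∨ PlanePc ρ D.S (Y i))
    {X : Submodule ℂ V} (hX : IrrOn ρ (Subgroup.closure D.S) X) :
    Module.finrank ℂ X = 1 ∨ (Module.finrank ℂ X = 2 ∧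
      ∀ s ∈ D.S, ∀ h : ∀ v ∈ X, ρ s v ∈ X, LinearMap.trace ℂ X ((ρ s).restrict h) = 0) := by
  obtain ⟨i, f, hf, hfe⟩ := irr_embed D ρ hi hs (fun i => by
    rcases hY i with h | h
    · exact h.stable
    · exact h.stable) hX
  have h0 : 0 < Module.finrank ℂ X := by
    rw [Module.finrank_pos_iff, Submodule.nontrivial_iff_ne_bot]
    exact hX.1
  rcases hY i with h1 | h1
  · left
    -- every line in `X` is stable
    obtain ⟨x, hxX, hx0⟩ := Submodule.exists_mem_ne_zero_of_ne_bot hX.1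
    have hle : Submodule.span ℂ {x} ≤ X := by
      rw [Submodule.span_singleton_le_iff_mem]
      exact hxX
    have hst : Stb ρ (Subgroup.closure D.S) (Submodule.span ℂ {x}) := by
      refine stb_closure D fun s hsS v hv => ?_
      obtain ⟨a, rfl⟩ := Submodule.mem_span_singleton.1 hv
      have hsx : ρ s x ∈ X := hX.2.1 s (Subgroup.subset_closure hsS) x hxX
      have h2 := hfe s hsS ⟨x, hxX⟩ ⟨ρ s x, hsx⟩ rfl
      rw [map_smul]
      refine Submodule.smul_mem _ _ ?_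
      rcases h1.sign hsS with h3 | h3
      · rw [h3 _ (f ⟨x, hxX⟩).2] at h2
        have h4 : (⟨ρ s x, hsx⟩ : X) = ⟨x, hxX⟩ := hf (Subtype.ext h2)
        have h5 : ρ s x = x := congrArg Subtype.val h4
        rw [h5]
        exact Submodule.mem_span_singleton_self x
      · rw [h3 _ (f ⟨x, hxX⟩).2] at h2
        have h4 : (⟨ρ s x, hsx⟩ : X) = -⟨x, hxX⟩ := hf (Subtype.ext (by
          rw [map_neg]
          exact h2))
        have h5 : ρ s x = -x := congrArg Subtype.val h4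
        rw [h5]
        exact Submodule.neg_mem _ (Submodule.mem_span_singleton_self x)
    rcases hX.2.2 _ hle hst with h2 | h2
    · rw [Submodule.span_singleton_eq_bot] at h2
      exact absurd h2 hx0
    · rw [← h2]
      exact finrank_span_singleton hx0
  · have h2 : Module.finrank ℂ X ≤ Module.finrank ℂ (Y i) := LinearMap.finrank_le_finrank_of_injective hf
    obtain ⟨h3, h4⟩ := h1
    by_cases h5 : Module.finrank ℂ X = 1
    · exact Or.inl h5
    · right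
      have h6 : Module.finrank ℂ X = 2 := by omega
      refine ⟨h6, fun s hsS h => ?_⟩
      have h7 : Function.Surjective f := by
        rw [← LinearMap.range_eq_top]
        apply Submodule.eq_top_of_finrank_eq
        rw [LinearMap.finrank_range_of_inj hf, h6, h3]
      obtain ⟨hst, h8⟩ := h4 s hsS
      let e : X ≃ₗ[ℂ] Y i := LinearEquiv.ofBijective f ⟨hf, h7⟩
      rw [← LinearMap.trace_conj' ((ρ s).restrict h) e, ← h8]
      congr 1
      apply LinearMap.ext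
      intro y
      obtain ⟨x, rfl⟩ := e.surjective y
      apply Subtype.ext
      change ((e (((ρ s).restrict h) (e.symm (e x))) : Y i) : V) = ρ s ((e x : Y i) : V)
      rw [e.symm_apply_apply]
      exact hfe s hsS x (((ρ s).restrict h) x) rfl

theorem nc_of_not_inv (D : Sys Γ) {ε : Subgroup.closure D.S →* ℂˣ} (hε : ¬ InvW D ε) :
    ∃ (s s' : Subgroup.closure D.S), (s : Γ) ∈ D.S ∧ (s' : Γ) ∈ D.S ∧ ε s ≠ ε s' := by
  by_contra hcon
  push Not at hcon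
  exact hε (invW_of_const D fun s s' hs hs' => hcon s s' hs hs')

/-- A weight which is not invariant does not occur in a subspace as in `SignPc`. -/
theorem sign_wt (D : Sys Γ) (ρ : Γ →* (V →ₗ[ℂ] V)) {X : Submodule ℂ V} (hX : SignPc ρ D.S X)
    {ε : Subgroup.closure D.S →* ℂˣ} (hε : ¬ InvW D ε) :
    (Wt ρ (Subgroup.closure D.S) ε ⊓ X : Submodule ℂ V) = ⊥ := by
  unfold InvW at hε
  push Not at hε
  obtain ⟨s, hs, g, hne⟩ := hε
  rcases hX s hs with h1 | h1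
  · refine opc2_scal _ ρ 1 ε ⟨g * s * g⁻¹, Subgroup.subset_closure (D.conj s hs g)⟩
      ⟨s, Subgroup.subset_closure hs⟩ (fun v hv => ?_) (fun v hv => ?_) hne
    · rw [one_smul]; exact h1 g v hv
    · rw [one_smul]
      have := h1 1 v hv
      have e : (1 : Γ) * s * 1⁻¹ = s := by group
      rwa [e] at this
  · refine opc2_scal _ ρ (-1) ε ⟨g * s * g⁻¹, Subgroup.subset_closure (D.conj s hs g)⟩
      ⟨s, Subgroup.subset_closure hs⟩ (fun v hv => ?_) (fun v hv => ?_) hne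
    · rw [neg_one_smul]; exact h1 g v hv
    · rw [neg_one_smul]
      have := h1 1 v hv
      have e : (1 : Γ) * s * 1⁻¹ = s := by group
      rwa [e] at this

theorem inv_of_inv_th (D : Sys Γ) {θ : Γ →* ℂˣ} (hθ : ∀ s ∈ D.S, θ s = -1) {ε : Subgroup.closure D.S →* ℂˣ}
    (h : InvW D (ε * thC D θ)) : InvW D ε := by
  have h1 := invW_th D θ h
  rwa [mul_thC_thC D hθ] at h1

theorem piece_mult' [FiniteDimensional ℂ V] (D : Sys Γ) {θ : Γ →* ℂˣ} (hθ : ∀ s ∈ D.S, θ s = -1)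
    {M : Subgroup Γ} (hM : M ∈ D.N) (ρ : Γ →* (V →ₗ[ℂ] V)) (h : ∀ g ∈ M, ρ g = 1)
    {X : Submodule ℂ V} (hX : SignPc ρ D.S X ∨ PlanePc ρ D.S X) {ε : Subgroup.closure D.S →* ℂˣ}
    (hε : ¬ InvW D ε) :
    Module.finrank ℂ (Wt ρ (Subgroup.closure D.S) ε ⊓ X : Submodule ℂ V) =
      Module.finrank ℂ (Wt ρ (Subgroup.closure D.S) (ε * thC D θ) ⊓ X : Submodule ℂ V) := by
  rcases hX with h1 | h1
  · rw [sign_wt D ρ h1 hε, sign_wt D ρ h1 fun h2 => hε (inv_of_inv_th D hθ h2)]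
  · exact piece_mult D hθ hM ρ h (Or.inr (Or.inr h1)) ε (nc_of_not_inv D hε)

/-- The main theorem, one direction. -/
theorem op_main' [FiniteDimensional ℂ V] (D : Sys Γ)
    (hup : ∀ M ∈ D.N, ∀ M' : Subgroup Γ, M'.Normal → M ≤ M' → M' ∈ D.N) (hnt : NtU D) (hS : D.S.Nonempty)
    {θ : Γ →* ℂˣ} (hθ : Sgn D θ) {M : Subgroup Γ} (hM : M ∈ D.N) (ρ : Γ →* (V →ₗ[ℂ] V)) (h : ∀ g ∈ M, ρ g = 1)
    {m : ℕ} {Y : Fin m → Submodule ℂ V} (hi : iSupIndep Y) (hs : ⨆ i, Y i = ⊤)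
    (hY : ∀ i, SignPc ρ D.S (Y i) ∨ PlanePc ρ D.S (Y i)) :
    (fun g => LinearMap.trace ℂ V (ρ g)) ∈ LPD D := by
  have hC : (Subgroup.closure D.S).Normal := closure_normal D
  have hMn : M.Normal := D.normal M hM
  have hMf : M.FiniteIndex := D.fin M hM
  have hY' := wt_sup_stb ρ hC
  obtain ⟨Z, hZ', hcompl⟩ := exists_compl ρ hMn hMf h ⊤ (X := ⨆ ε : Subgroup.closure D.S →* ℂˣ, Wt ρ _ ε)
    (fun g _ => hY' g)
  have hZ : ∀ g, ∀ v ∈ Z, ρ g v ∈ Z := fun g => hZ' g (Subgroup.mem_top g)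
  have e1 : (fun g => LinearMap.trace ℂ V (ρ g)) = (fun g => LinearMap.trace ℂ _ (subR ρ _ hY' g)) +
      fun g => LinearMap.trace ℂ Z (subR ρ Z hZ g) := funext fun g => trace_compl ρ hcompl hY' hZ g
  rw [e1]
  refine AddSubgroup.add_mem _ ?_ (pdp_le_lpd D ⟨M, hM⟩ hθ (pl_part D hup hθ hM ρ h hcompl hZ fun X hX =>
    odd_irr' D ρ hi hs hY hX))
  obtain ⟨s1, s2⟩ := wt_subR_top ρ hY'
  refine lx_main' D hup hnt hS hθ hM (subR ρ _ hY') (fun g hg => subR_one ρ _ hY' (h g hg)) s1 fun ε hε => ?_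
  rw [s2, s2]
  have hst : ∀ i, Stb ρ (Subgroup.closure D.S) (Y i) := fun i => stb_closure D (by
    rcases hY i with h | h
    · exact h.stable
    · exact h.stable)
  rw [wt_split ρ _ Y hi hs hst, wt_split ρ _ Y hi hs hst]
  exact Finset.sum_congr rfl fun i _ => piece_mult' D hθ.2 hM ρ h (hY i) hε

end SB
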