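import Pool.Agent.Helper68.OP.Stmt
import Pool.Agent.Helper68.OPF.C
import Pool.Agent.Helper68.OP.G2
import Pool.Agent.Helper68.OP.G3

/-!
# OPF-D: from combinations of induced characters to irreducible subspaces and multiplicities
-/

namespace SB

open G3

universe u v

variable {Γ : Type u} [Group Γ]

theorem oddComb_of_fintype {S : Set Γ} {N : Subgroup Γ} {v : Γ → ℂ} {ι : Type} [Fintype ι]
    (n : ι → ℤ) (U : ι → Subgroup Γ) (e : ι → ℕ) (ψ : ∀ i, Rp (U i) (e i))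
    (h : ∀ i, OddRep S N (U i) (e i) (ψ i)) (hv : ∀ g, v g = ∑ i, (n i : ℂ) * IndRep (U i) (ψ i) g) :
    OddComb S N v := by
  refine ⟨Fintype.card ι, fun i => n ((Fintype.equivFin ι).symm i),
    fun i => U ((Fintype.equivFin ι).symm i), fun i => e ((Fintype.equivFin ι).symm i),
    fun i => ψ ((Fintype.equivFin ι).symm i), fun i => h _, fun g => ?_⟩
  rw [hv]
  exact (Equiv.sum_comp (Fintype.equivFin ι).symm (fun i => (n i : ℂ) * IndRep (U i) (ψ i) g)).symm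

theorem OddRep.mono {S : Set Γ} {N N' U : Subgroup Γ} {e : ℕ} {ψ : Rp U e} (hN : N' ≤ N) (h : OddRep S N U e ψ) :
    OddRep S N' U e ψ :=
  ⟨h.1, hN.trans h.2.1, fun g hg hgN => h.2.2.1 g hg (hN hgN), h.2.2.2⟩

theorem oddComb_mono {S : Set Γ} {N N' : Subgroup Γ} (hN : N' ≤ N) {v : Γ → ℂ} (h : OddComb S N v) :
    OddComb S N' v := by
  obtain ⟨m, n, U, e, ψ, h1, h2⟩ := h
  exact ⟨m, n, U, e, ψ, fun i => (h1 i).mono hN, h2⟩

theorem oddComb_add {S : Set Γ} {N : Subgroup Γ} {v w : Γ → ℂ} (h : OddComb S N v) (h' : OddComb S N w) :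
    OddComb S N (fun g => v g + w g) := by
  obtain ⟨m, n, U, e, ψ, h1, h2⟩ := h
  obtain ⟨m', n', U', e', ψ', h1', h2'⟩ := h'
  refine oddComb_of_fintype (ι := Fin m ⊕ Fin m') (Sum.elim n n') (Sum.elim U U') (Sum.elim e e')
    (fun i => Sum.rec (fun i => ψ i) (fun i => ψ' i) i) (fun i => ?_) fun g => ?_
  · rcases i with i | i
    · exact h1 i
    · exact h1' i
  · rw [Fintype.sum_sum_type, h2 g, h2' g]
    rfl

theorem oddComb_of_pd (D : Sys Γ) (hne : D.N.Nonempty) {v : Γ → ℂ} (h : v ∈ PD D) :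
    ∃ M ∈ D.N, OddComb D.S M v := by
  obtain ⟨M, hM, m, n, U, e, ψ, ψ', h1, h2⟩ := pd_explicit D hne h
  refine ⟨M, hM, oddComb_of_fintype (ι := Fin m ⊕ Fin m) (Sum.elim n (fun i => -n i)) (Sum.elim U U) (Sum.elim e e)
    (fun i => Sum.rec (fun i => ψ i) (fun i => ψ' i) i) (fun i => ?_) fun g => ?_⟩
  · rcases i with i | i
    · obtain ⟨a1, ⟨a2, -, a3, a4⟩, a5⟩ := h1 i
      refine ⟨a2, a1, fun g hg hgM => (a5 g hg hgM).1, a3⟩
    · obtain ⟨a1, ⟨a2, -, a3, a4⟩, a5⟩ := h1 i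
      refine ⟨a2, a1, fun g hg hgM => (a5 g hg hgM).2, ?_⟩
      rcases a3 with a3 | ⟨a3, a6⟩
      · exact Or.inl a3
      · refine Or.inr ⟨a3, fun s hs hsS => ?_⟩
        change chr (ψ' i) ⟨s, hs⟩ = 0
        rw [← a4 s hs hsS]
        exact a6 s hs hsS
  · rw [Fintype.sum_sum_type, h2 g, ← Finset.sum_add_distrib]
    refine Finset.sum_congr rfl fun i _ => ?_
    change _ = (n i : ℂ) * Ind (U i) (exz (U i) (chr (ψ i))) g + ((-n i : ℤ) : ℂ) * Ind (U i) (exz (U i) (chr (ψ' i))) g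
    push_cast
    ring

theorem oddComb_lin {D : Sys Γ} {η : Γ →* ℂˣ} (c : ℤ) (h : ∃ M ∈ D.N, ∀ g ∈ M, η g = 1) :
    ∃ M ∈ D.N, OddComb D.S M (fun g => (c : ℂ) * ((η g : ℂˣ) : ℂ)) := by
  obtain ⟨M, hM, h1⟩ := h
  obtain ⟨β, hβ, hβ1⟩ := exists_rp_one (resc (⊤ : Subgroup Γ) η)
  refine ⟨M, hM, oddComb_of_fintype (ι := Unit) (fun _ => c) (fun _ => ⊤) (fun _ => 1) (fun _ => β)
    (fun _ => ⟨Set.subset_univ _, le_top, fun g hg hgM => hβ1 _ (h1 g hgM), Or.inl rfl⟩) fun g => ?_⟩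
  have e4 : IndRep ⊤ β g = ((η g : ℂˣ) : ℂ) :=
    ind_top (F := fun g => ((η g : ℂˣ) : ℂ)) (fun g hg => by rw [hβ]; rfl) (fun g x => by
      rw [map_mul, map_mul, map_inv, mul_comm, mul_inv_cancel_left]) g
  simp only [Finset.univ_unique, Finset.sum_singleton]
  rw [e4]

/-- Elements of `LPD` are combinations of induced characters. -/
theorem oddComb_of_lpd (D : Sys Γ) (hne : D.N.Nonempty) {v : Γ → ℂ} (h : v ∈ LPD D) :
    ∃ M ∈ D.N, OddComb D.S M v := by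
  obtain ⟨m, n, η, h1, h2⟩ := lpd_explicit D h
  have key : ∀ T : Finset (Fin m), ∃ M ∈ D.N, OddComb D.S M (fun g => ∑ i ∈ T, (n i : ℂ) * ((η i g : ℂˣ) : ℂ)) := by
    classical
    intro T
    induction T using Finset.induction_on with
    | empty =>
      obtain ⟨M, hM⟩ := hne
      exact ⟨M, hM, 0, fun i => i.elim0, fun i => i.elim0, fun i => i.elim0, fun i => i.elim0, fun i => i.elim0,
        fun g => by simp⟩
    | insert a T ha ih =>
      obtain ⟨M, hM, h3⟩ := ih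
      obtain ⟨M', hM', h4⟩ := oddComb_lin (n a) (h1 a)
      refine ⟨M ⊓ M', D.inf _ hM _ hM', ?_⟩
      have h5 := oddComb_add (oddComb_mono inf_le_right h4) (oddComb_mono (inf_le_left (b := M')) h3)
      simp only [Finset.sum_insert ha]
      exact h5
  obtain ⟨M, hM, h3⟩ := oddComb_of_pd D hne h2
  obtain ⟨M', hM', h4⟩ := key Finset.univ
  refine ⟨M ⊓ M', D.inf _ hM _ hM', ?_⟩
  have h5 := oddComb_add (oddComb_mono (inf_le_left (b := M')) h3) (oddComb_mono (inf_le_right (a := M)) h4)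
  refine (congrArg (OddComb D.S (M ⊓ M')) (funext fun g => ?_)).mp h5
  rw [sub_add_cancel]

variable {V : Type v} [AddCommGroup V] [Module ℂ V]

/-- The irreducible subspaces, if the trace is a combination of induced characters. -/
theorem conv_irr' [FiniteDimensional ℂ V] (D : Sys Γ) {M M₁ : Subgroup Γ} (hM : M ∈ D.N) (hM₁ : M₁ ∈ D.N)
    (ρ : Γ →* (V →ₗ[ℂ] V)) (h : ∀ g ∈ M, ρ g = 1) (hv : OddComb D.S M₁ (fun g => LinearMap.trace ℂ V (ρ g)))
    {X : Submodule ℂ V} (hX : IrrOn ρ (Subgroup.closure D.S) X) :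
    Module.finrank ℂ X = 1 ∨ (Module.finrank ℂ X = 2 ∧
      ∀ s ∈ D.S, ∀ h : ∀ v ∈ X, ρ s v ∈ X, LinearMap.trace ℂ X ((ρ s).restrict h) = 0) := by
  obtain ⟨m, n, U, e, ψ, hψ, hsum⟩ := hv
  have hM2 : M ⊓ M₁ ∈ D.N := D.inf _ hM _ hM₁
  set M2 : Subgroup Γ := M ⊓ M₁ with hM2d
  have hCn : (Subgroup.closure D.S).Normal := closure_normal D
  have hM2n : M2.Normal := D.normal _ hM2
  have hNn : (Subgroup.closure D.S ⊔ M2).Normal := Subgroup.sup_normal _ _
  have hρ2 : ∀ g ∈ M2, ρ g = 1 := fun g hg => h g hg.1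
  have hX2 : IrrOn ρ (Subgroup.closure D.S ⊔ M2) X :=
    ⟨hX.1, op_stb_sup hρ2 hX.2.1 hCn, fun Y hY hst => hX.2.2 Y hY fun u hu v hv => hst u (Subgroup.mem_sup_left hu) v hv⟩
  have hSU : ∀ i, Subgroup.closure D.S ⊔ M2 ≤ U i := fun i =>
    sup_le ((Subgroup.closure_le _).2 (hψ i).1) (inf_le_right.trans (hψ i).2.1)
  obtain ⟨i, x, Z, hZ, hd, htr⟩ := occurs_fin ρ hM2n (D.fin _ hM2) le_sup_right hNn hρ2 hX2 n U hSU e ψ
    (fun i u hu => (hψ i).2.2.1 u.1 u.2 hu.2) (fun g _ => hsum g)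
  have hZ1 : 1 ≤ Module.finrank ℂ Z := by
    rw [Nat.one_le_iff_ne_zero]
    intro h0
    exact hZ.1 (Submodule.finrank_eq_zero.1 h0)
  have hZ2 : Module.finrank ℂ Z ≤ e i := by
    have := Submodule.finrank_le Z
    rwa [Module.finrank_fin_fun] at this
  rcases (hψ i).2.2.2 with h1 | ⟨h1, h2⟩
  · left
    omega
  · by_cases hZe : Module.finrank ℂ Z = 1
    · left
      omega
    · right
      have hZ3 : Module.finrank ℂ Z = 2 := by omega
      refine ⟨by omega, fun s hs hst => ?_⟩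
      have hZt : Z = ⊤ := by
        apply Submodule.eq_top_of_finrank_eq
        rw [Module.finrank_fin_fun]
        omega
      have hsN : s ∈ Subgroup.closure D.S ⊔ M2 := Subgroup.mem_sup_left (Subgroup.subset_closure hs)
      have hxs : x⁻¹ * s * x ∈ D.S := by
        have := D.conj s hs x⁻¹
        rwa [inv_inv] at this
      have hxN : x⁻¹ * s * x ∈ Subgroup.closure D.S ⊔ M2 := Subgroup.mem_sup_left (Subgroup.subset_closure hxs)
      have hxU : x⁻¹ * s * x ∈ U i := hSU i hxN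
      have e1 := htr s hsN hxU
      have e2 : trx ρ (Subgroup.closure D.S ⊔ M2) X s = LinearMap.trace ℂ X ((ρ s).restrict hst) := by
        unfold trx
        rw [dif_pos ⟨hsN, hst⟩]
      have e3 : trx (lin (ψ i)) ((Subgroup.closure D.S ⊔ M2).subgroupOf (U i)) Z ⟨x⁻¹ * s * x, hxU⟩ =
          chr (ψ i) ⟨x⁻¹ * s * x, hxU⟩ := by
        have hst' : ∀ v ∈ Z, lin (ψ i) ⟨x⁻¹ * s * x, hxU⟩ v ∈ Z := by
          intro v _
          rw [hZt]
          exact Submodule.mem_top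
        unfold trx
        rw [dif_pos ⟨Subgroup.mem_subgroupOf.2 hxN, hst'⟩,
          LinearMap.trace_restrict_eq_of_forall_mem Z _ (fun v => by rw [hZt]; exact Submodule.mem_top), trace_lin]
      rw [← e2, e1, e3]
      exact h2 _ hxU hxs

end SB
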