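import Pool.Agent.Helper68.OPF.D

/-!
# OPF-E: the multiplicities of the weights which are not invariant
-/

namespace SB

universe u v

variable {Γ : Type u} [Group Γ]

theorem inv_of_mul_lin (D : Sys Γ) {ε : Subgroup.closure D.S →* ℂˣ} {η : Γ →* ℂˣ} (h : ε * thC D η = 1) :
    InvW D ε := by
  have key : ∀ c : Subgroup.closure D.S, ε c = (η (c : Γ))⁻¹ := by
    intro c
    have h1 := DFunLike.congr_fun h c
    rw [MonoidHom.mul_apply, thC_apply, MonoidHom.one_apply] at h1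
    exact eq_inv_of_mul_eq_one_left h1
  intro s hs g
  rw [key, key]
  congr 1
  change η (g * s * g⁻¹) = η s
  rw [map_mul, map_mul, map_inv, mul_comm, inv_mul_cancel_left]

variable {V : Type v} [AddCommGroup V] [Module ℂ V]

theorem conv_mult' [FiniteDimensional ℂ V] (D : Sys Γ) {θ : Γ →* ℂˣ} (hθ : Sgn D θ) {M : Subgroup Γ} (hM : M ∈ D.N)
    (ρ : Γ →* (V →ₗ[ℂ] V)) (h : ∀ g ∈ M, ρ g = 1) (hv : (fun g => LinearMap.trace ℂ V (ρ g)) ∈ LPD D)
    (ε : Subgroup.closure D.S →* ℂˣ) (hε : ¬ InvW D ε) :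
    Module.finrank ℂ (Wt ρ (Subgroup.closure D.S) ε) =
      Module.finrank ℂ (Wt ρ (Subgroup.closure D.S) (ε * thC D θ)) := by
  classical
  obtain ⟨⟨Mθ, hMθ, hθM⟩, hθS⟩ := hθ
  obtain ⟨k, a, η, hη, hab⟩ := lpd_explicit D hv
  choose Mη' hMη' hηM' using hη
  obtain ⟨Mη, hMη, -, hcom⟩ := exists_common D hMθ Mη' hMη'
  have hηM : ∀ i, ∀ g ∈ Mη, η i g = 1 := fun i g hg => hηM' i g (hcom i hg)
  have hM2 : M ⊓ (Mθ ⊓ Mη) ∈ D.N := D.inf M hM _ (D.inf Mθ hMθ Mη hMη)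
  have hsq : ∀ (χ : Subgroup.closure D.S →* ℂˣ) (c : Subgroup.closure D.S), χ c * χ c = 1 := sq_one_G2 D
  by_cases hc : ∀ c : Subgroup.closure D.S, (c : Γ) ∈ M ⊓ (Mθ ⊓ Mη) → ε c = 1
  · -- the main case
    have hc' : ∀ c : Subgroup.closure D.S, (c : Γ) ∈ M ⊓ (Mθ ⊓ Mη) → (ε * thC D θ) c = 1 := by
      intro c hcM
      rw [MonoidHom.mul_apply, hc c hcM, one_mul]
      exact hθM c hcM.2.1
    have hn : (M ⊓ (Mθ ⊓ Mη)).Normal := D.normal _ hM2
    have hfi : (M ⊓ (Mθ ⊓ Mη)).FiniteIndex := D.fin _ hM2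
    have hρ : ∀ g ∈ M ⊓ (Mθ ⊓ Mη), ρ g = 1 := fun g hg => h g hg.1
    have e1 := wt_avg ρ hn hfi hρ ε hc
    have e2 := wt_avg ρ hn hfi hρ (ε * thC D θ) hc'
    set N : Subgroup (Subgroup.closure D.S) := (M ⊓ (Mθ ⊓ Mη)).subgroupOf (Subgroup.closure D.S) with hN
    have hNn : N.Normal := inferInstance
    have hNf : N.FiniteIndex := inferInstance
    have hQ : Finite (Subgroup.closure D.S ⧸ N) := Subgroup.finite_quotient_of_finiteIndex
    have := Fintype.ofFinite (Subgroup.closure D.S ⧸ N)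
    have hcard : (Nat.card (Subgroup.closure D.S ⧸ N) : ℂ) ≠ 0 := by
      have : Nat.card (Subgroup.closure D.S ⧸ N) ≠ 0 := Nat.card_pos.ne'
      exact_mod_cast this
    have hinv : ∀ (χ : Subgroup.closure D.S →* ℂˣ) (c : Subgroup.closure D.S),
        (((χ c)⁻¹ : ℂˣ) : ℂ) = ((χ c : ℂˣ) : ℂ) := by
      intro χ c
      rw [inv_eq_of_mul_eq_one_left (hsq χ c)]
    -- the twisted symmetric part
    obtain ⟨M1, hM1, m, n, U, e, ψ, ψ', hU, hsum⟩ := pd_explicit D ⟨M, hM⟩ hab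
    let w : Γ → ℂ := fun g => LinearMap.trace ℂ V (ρ g) - ∑ i, (a i : ℂ) * ((η i g : ℂˣ) : ℂ)
    have hw : ∀ c ∈ Subgroup.closure D.S, ((θ c : ℂˣ) : ℂ) * w c = w c⁻¹ := by
      intro c hc0
      have hs1 : w c = _ := hsum c
      have hs2 : w c⁻¹ = _ := hsum c⁻¹
      rw [hs1, hs2, Finset.mul_sum]
      refine Finset.sum_congr rfl fun i _ => ?_
      obtain ⟨hi1, ⟨hi2, hi3, hi4, hi5⟩, hi6⟩ := hU i
      have hfin : (U i).FiniteIndex := fin_of_N D hM1 hi1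
      rcases hi4 with hi4 | ⟨hi4, hi7⟩
      · have k1 : ∀ x ∈ Subgroup.closure D.S,
            Ind (U i) (exz (U i) (chr (ψ i))) x = Ind (U i) (exz (U i) (chr (ψ' i))) x :=
          ind_one'_G2 D hfin hi2 hi4 (ψ i) (ψ' i) hi5
        rw [k1 c hc0, k1 c⁻¹ (Subgroup.inv_mem _ hc0), sub_self, sub_self, mul_zero, mul_zero]
      · have k1 : ((θ c : ℂˣ) : ℂ) * Ind (U i) (exz (U i) (chr (ψ i))) c = Ind (U i) (exz (U i) (chr (ψ i))) c⁻¹ ∧
            ((θ c : ℂˣ) : ℂ) * Ind (U i) (exz (U i) (chr (ψ' i))) c = Ind (U i) (exz (U i) (chr (ψ' i))) c⁻¹ := by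
          refine ⟨ind_tw'_G2 D hθS hfin hi2 hi4 (ψ i) hi7 c hc0,
            ind_tw'_G2 D hθS hfin hi2 hi4 (ψ' i) (fun x hx hxS => ?_) c hc0⟩
          rw [← hi5 x hx hxS, hi7 x hx hxS]
        rw [← k1.1, ← k1.2]
        ring
    have hwN : ∀ (c : Subgroup.closure D.S), ∀ x ∈ N, w ((c * x : Subgroup.closure D.S) : Γ) = w (c : Γ) := by
      intro c x hx
      have hx' : (x : Γ) ∈ M ⊓ (Mθ ⊓ Mη) := hx
      change LinearMap.trace ℂ V (ρ ((c * x : Subgroup.closure D.S) : Γ)) - ∑ i, (a i : ℂ) *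
        ((η i ((c * x : Subgroup.closure D.S) : Γ) : ℂˣ) : ℂ) = LinearMap.trace ℂ V (ρ c) - ∑ i, (a i : ℂ) *
        ((η i (c : Γ) : ℂˣ) : ℂ)
      rw [Subgroup.coe_mul, map_mul ρ, hρ _ hx', mul_one]
      congr 1
      exact Finset.sum_congr rfl fun i _ => by rw [map_mul, hηM i _ hx'.2.2, mul_one]
    -- sums of `w`
    have hD : ∑ᶠ q : Subgroup.closure D.S ⧸ N, ((ε q.out : ℂˣ) : ℂ) * w (q.out : Subgroup.closure D.S) =
        ∑ᶠ q : Subgroup.closure D.S ⧸ N, (((ε * thC D θ) q.out : ℂˣ) : ℂ) * w (q.out : Subgroup.closure D.S) := by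
      rw [← sum_inv_G2 hNn (fun c : Subgroup.closure D.S => ((ε c : ℂˣ) : ℂ) * w (c : Γ)) (fun c x hx => by
        rw [hwN c x hx, map_mul, hc x hx, mul_one])]
      refine finsum_congr fun q => ?_
      rw [MonoidHom.mul_apply, Units.val_mul, mul_assoc, thC_apply, hw _ (q.out : Subgroup.closure D.S).2]
      rw [map_inv, hinv ε, Subgroup.coe_inv]
    -- sums of characters
    have key : ∀ (χ : Subgroup.closure D.S →* ℂˣ), ¬ InvW D χ →
        (∀ c : Subgroup.closure D.S, (c : Γ) ∈ M ⊓ (Mθ ⊓ Mη) → χ c = 1) →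
        ∑ᶠ q : Subgroup.closure D.S ⧸ N, (((χ q.out)⁻¹ : ℂˣ) : ℂ) *
          LinearMap.trace ℂ V (ρ (q.out : Subgroup.closure D.S)) =
        ∑ᶠ q : Subgroup.closure D.S ⧸ N, ((χ q.out : ℂˣ) : ℂ) * w (q.out : Subgroup.closure D.S) := by
      intro χ hχ hχ1
      have z : ∀ i, ∑ q : Subgroup.closure D.S ⧸ N, ((χ q.out : ℂˣ) : ℂ) *
          ((η i (q.out : Subgroup.closure D.S) : ℂˣ) : ℂ) = 0 := by
        intro i
        have h1 := sum_zero_G2 hNn hNf (χ * thC D (η i)) (fun x hx => by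
          have hx' : (x : Γ) ∈ M ⊓ (Mθ ⊓ Mη) := hx
          rw [MonoidHom.mul_apply, thC_apply, hχ1 x hx', hηM i _ hx'.2.2, mul_one]) fun h2 =>
            hχ (inv_of_mul_lin D h2)
        rw [finsum_eq_sum_of_fintype] at h1
        rw [← h1]
        exact Finset.sum_congr rfl fun q _ => by rw [MonoidHom.mul_apply, Units.val_mul, thC_apply]
      rw [finsum_eq_sum_of_fintype, finsum_eq_sum_of_fintype]
      have e3 : ∑ q : Subgroup.closure D.S ⧸ N, ((χ q.out : ℂˣ) : ℂ) *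
          ∑ i, (a i : ℂ) * ((η i (q.out : Subgroup.closure D.S) : ℂˣ) : ℂ) = 0 := by
        simp only [Finset.mul_sum]
        rw [Finset.sum_comm]
        refine Finset.sum_eq_zero fun i _ => ?_
        have e4 : ∀ q : Subgroup.closure D.S ⧸ N, ((χ q.out : ℂˣ) : ℂ) *
            ((a i : ℂ) * ((η i (q.out : Subgroup.closure D.S) : ℂˣ) : ℂ)) =
            (a i : ℂ) * (((χ q.out : ℂˣ) : ℂ) * ((η i (q.out : Subgroup.closure D.S) : ℂˣ) : ℂ)) := fun q => by ring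
        rw [Finset.sum_congr rfl fun q _ => e4 q, ← Finset.mul_sum, z, mul_zero]
      rw [← sub_eq_zero, ← Finset.sum_sub_distrib, ← e3]
      refine Finset.sum_congr rfl fun q _ => ?_
      rw [hinv χ]
      change _ - ((χ q.out : ℂˣ) : ℂ) * (LinearMap.trace ℂ V (ρ (q.out : Subgroup.closure D.S)) -
        ∑ i, (a i : ℂ) * ((η i (q.out : Subgroup.closure D.S) : ℂˣ) : ℂ)) = _
      ring
    rw [key ε hε hc] at e1
    rw [key (ε * thC D θ) (fun h1 => hε (inv_of_inv_th D hθS h1)) hc', ← hD, e1] at e2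
    have := mul_left_cancel₀ hcard e2
    exact_mod_cast this
  · -- both weight spaces are zero
    push Not at hc
    obtain ⟨c, hcM, hcε⟩ := hc
    have key : ∀ χ : Subgroup.closure D.S →* ℂˣ, χ c ≠ 1 → Wt ρ (Subgroup.closure D.S) χ = ⊥ := by
      intro χ hχ
      rw [eq_bot_iff]
      intro x hx
      have h1 := hx c
      rw [h c hcM.1] at h1
      have h2 : (1 - ((χ c : ℂˣ) : ℂ)) • x = 0 := by
        rw [sub_smul, one_smul, ← h1]
        exact sub_self x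
      rcases smul_eq_zero.1 h2 with h3 | h3
      · exfalso
        apply hχ
        apply Units.ext
        rw [Units.val_one]
        linear_combination -h3
      · exact h3
    rw [key ε hcε, key (ε * thC D θ) (by
      rw [MonoidHom.mul_apply, thC_apply, hθM c hcM.2.1, mul_one]
      exact hcε)]

end SB
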