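import Pool.Agent.Helper68.OPF.A
import Pool.Agent.Helper68.OP.M2
import Pool.Agent.Helper21.CC.N15

/-!
# OPF-F: pairs with equal traces
-/

namespace SB

universe u v

section
variable {Γ : Type u} [Group Γ]

/-- An element of `LPD` which vanishes at `1` and on `S`. -/
theorem lpd_zero (D : Sys Γ) (hnt : NtU D) (hne : D.N.Nonempty) {v : Γ → ℂ} (h : v ∈ LPD D) (h1 : v 1 = 0)
    (hS : ∀ s ∈ D.S, v s = 0) : ∃ w w' : Γ → ℂ, Fam D (QuadOver D.S) w ∧ w' ∈ PD D ∧ ∀ g, v g = w g + w' g := by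
  obtain ⟨M, hM⟩ := hne
  obtain ⟨m, n, η, hη, hp⟩ := lpd_explicit D h
  obtain ⟨z1, zS⟩ := pd_zero_at D hp
  let ψ : Γ → ℂ := ∑ i, n i • ext ⊤ (resc ⊤ (η i))
  have e : ∀ g, ψ g = ∑ i, (n i : ℂ) * ((η i g : ℂˣ) : ℂ) := by
    intro g
    change (∑ i, n i • ext ⊤ (resc ⊤ (η i))) g = _
    rw [Finset.sum_apply]
    exact Finset.sum_congr rfl fun i _ => by
      rw [Pi.smul_apply, zsmul_eq_mul, ext_resc _ _ (Subgroup.mem_top g)]
  have hψ : Lin D ⊤ ψ := lin_sum_G1 _ _ fun i _ => by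
    obtain ⟨Mη, hMη, hη1⟩ := hη i
    exact lin_zsmul_G1 _ (lin_ext (opc_resc hM le_top (η i) hMη hη1))
  have hq : GQ2 D ⊤ ψ := by
    refine lin_q2 D hnt hM le_top (Set.subset_univ _) hψ ?_ fun s hs => ?_
    · rw [e]
      rw [h1, zero_sub, neg_eq_zero] at z1
      exact z1
    · rw [e]
      have := zS s hs
      beta_reduce at this
      rw [hS s hs, zero_sub, neg_eq_zero] at this
      exact this
  have hcls : ∀ g x, ψ (x⁻¹ * g * x) = ψ g := by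
    intro g x
    rw [e, e]
    exact Finset.sum_congr rfl fun i _ => by
      rw [map_mul, map_mul, map_inv, mul_right_comm ((η i) x)⁻¹, inv_mul_cancel, one_mul]
  have hind : Ind ⊤ ψ = ψ := by
    funext g
    unfold Ind
    have hu : Unique (Γ ⧸ (⊤ : Subgroup Γ)) := by
      have : Subsingleton (Γ ⧸ (⊤ : Subgroup Γ)) := QuotientGroup.subsingleton_quotient_top
      exact Unique.mk' _
    rw [finsum_unique]
    exact hcls g _
  have hf : Fam D (QuadOver D.S) ψ := by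
    have : Fam D (QuadOver D.S) (Ind ⊤ ψ) := hq
    rwa [hind] at this
  refine ⟨ψ, _, hf, hp, fun g => ?_⟩
  rw [e]
  ring

/-- The same if `S` is one class. -/
theorem lpd_zero_one (D : Sys Γ) (hS : D.S.Nonempty) (hone : ∀ s ∈ D.S, ∀ s' ∈ D.S, ∃ g, s' = g * s * g⁻¹)
    {θ : Γ →* ℂˣ} (hθ : Sgn D θ) {v : Γ → ℂ} (h : v ∈ LPD D) (h1 : v 1 = 0) (hvS : ∀ s ∈ D.S, v s = 0) :
    v ∈ PD D := by
  obtain ⟨s₀, hs₀⟩ := hS
  obtain ⟨m, n, η, hη, hp⟩ := lpd_explicit D h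
  -- each linear character is congruent to `1` or `θ`
  have key : ∀ i, ∃ b : ℤ, (fun g => ((η i g : ℂˣ) : ℂ) - (1 - b) - b * ((θ g : ℂˣ) : ℂ)) ∈ PD D := by
    intro i
    obtain ⟨M, hM, hM1⟩ := hη i
    obtain ⟨Mθ, hMθ, hθ1⟩ := hθ.1
    have hcl : ∀ s ∈ D.S, η i s = η i s₀ := by
      intro s hs
      obtain ⟨g, rfl⟩ := hone s₀ hs₀ s hs
      rw [map_mul, map_mul, map_inv, mul_comm, inv_mul_cancel_left]
    have hfam : ∀ ξ : Γ →* ℂˣ, (∃ M ∈ D.N, ∀ g ∈ M, ξ g = 1) → (∀ s ∈ D.S, η i s = ξ s) →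
        (fun g => ((η i g : ℂˣ) : ℂ) - ((ξ g : ℂˣ) : ℂ)) ∈ PD D := by
      rintro ξ ⟨M', hM', hξ⟩ hs
      have hf : Fam D (fun U => D.S ⊆ U) (fun g => Ind ⊤ (ext ⊤ (resc ⊤ (η i))) g - Ind ⊤ (ext ⊤ (resc ⊤ ξ)) g) :=
        fam_of_fintype_A2 D _ (ι := Unit) (fun _ => 1) (fun _ => ⊤) (fun _ => resc ⊤ (η i)) (fun _ => resc ⊤ ξ)
          (fun _ => Set.subset_univ _) (fun _ => opc_resc hM le_top (η i) hM hM1) (fun _ => opc_resc hM le_top ξ hM' hξ)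
          (fun _ s _ hsS => hs s hsS) fun g => by simp
      rw [ind_top_ext, ind_top_ext] at hf
      exact pd_of_fam D hf
    rcases val_S D (resc ⊤ (η i)) hs₀ (Subgroup.mem_top s₀) with h2 | h2
    · refine ⟨0, ?_⟩
      have h3 := hfam 1 ⟨M, hM, fun _ _ => rfl⟩ fun s hs => (hcl s hs).trans h2
      refine (congrArg (· ∈ PD D) (funext fun g => ?_)).mp h3
      rw [MonoidHom.one_apply, Units.val_one]
      push_cast
      ring
    · refine ⟨1, ?_⟩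
      have h3 := hfam θ hθ.1 fun s hs => ((hcl s hs).trans h2).trans (hθ.2 s hs).symm
      refine (congrArg (· ∈ PD D) (funext fun g => ?_)).mp h3
      push_cast
      ring
  choose b hb using key
  have h2 : (∑ i, n i • fun g => (((η i g : ℂˣ) : ℂ) - (1 - b i) - b i * ((θ g : ℂˣ) : ℂ))) ∈ PD D :=
    AddSubgroup.sum_mem _ fun i _ => AddSubgroup.zsmul_mem _ (hb i) _
  have h3 := AddSubgroup.add_mem _ hp h2
  have e : (fun g => v g - (∑ i, n i * (1 - b i) : ℤ) - (∑ i, n i * b i : ℤ) * ((θ g : ℂˣ) : ℂ)) ∈ PD D := by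
    refine (congrArg (· ∈ PD D) (funext fun g => ?_)).mp h3
    rw [Pi.add_apply, Finset.sum_apply]
    simp only [Pi.smul_apply, zsmul_eq_mul]
    push_cast
    rw [Finset.sum_mul, sub_sub, ← Finset.sum_add_distrib, sub_add_eq_add_sub, add_sub_assoc,
      ← Finset.sum_sub_distrib, sub_eq_add_neg (v g), ← Finset.sum_neg_distrib]
    congr 1
    exact Finset.sum_congr rfl fun i _ => by ring
  obtain ⟨z1, zS⟩ := pd_zero_at D e
  have z2 := zS s₀ hs₀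
  beta_reduce at z1 z2
  rw [h1, map_one, Units.val_one] at z1
  rw [hvS s₀ hs₀, hθ.2 s₀ hs₀, Units.val_neg, Units.val_one] at z2
  have h5 : ((∑ i, n i * (1 - b i) : ℤ) : ℂ) = 0 := by linear_combination (-1 / 2 : ℂ) * z1 + (-1 / 2 : ℂ) * z2
  have h6 : ((∑ i, n i * b i : ℤ) : ℂ) = 0 := by linear_combination (-1 / 2 : ℂ) * z1 + (1 / 2 : ℂ) * z2
  rw [h5, h6] at e
  refine (congrArg (· ∈ PD D) (funext fun g => ?_)).mp e
  ring

/-- On the sum of the weight spaces of `C` the elements of `C` commute. -/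
theorem wt_comm_F {V : Type v} [AddCommGroup V] [Module ℂ V] {ρ : Γ →* (V →ₗ[ℂ] V)} {C : Subgroup Γ}
    (h : (⨆ ε : C →* ℂˣ, Wt ρ C ε) = ⊤) {g g' : Γ} (hg : g ∈ C) (hg' : g' ∈ C) : ρ g * ρ g' = ρ g' * ρ g := by
  apply LinearMap.ext
  intro v
  have hv : v ∈ ⨆ ε : C →* ℂˣ, Wt ρ C ε := by rw [h]; exact Submodule.mem_top
  induction hv using Submodule.iSup_induction' with
  | mem ε x hx =>
    have h1 := mem_Wt.1 hx ⟨g, hg⟩
    have h2 := mem_Wt.1 hx ⟨g', hg'⟩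
    change ρ g x = _ at h1
    change ρ g' x = _ at h2
    rw [Module.End.mul_apply, Module.End.mul_apply, h2, h1, map_smul, map_smul, h1, h2, smul_smul, smul_smul,
      mul_comm]
  | zero => rw [map_zero, map_zero]
  | add x y _ _ hx hy => rw [map_add, map_add, hx, hy]

/-- Two representations in which `Z ⊇ S` commutes with `S`, with equal traces on `S` up to `a + b θ`. -/
theorem pair_mult (D : Sys Γ) (hup : ∀ M ∈ D.N, ∀ M' : Subgroup Γ, M'.Normal → M ≤ M' → M' ∈ D.N)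
    (hnt : NtU D) {θ : Γ →* ℂˣ} (hθ : Sgn D θ) {p : ℕ} (hpr : p.Prime)
    {M Z P : Subgroup Γ} (hM : M ∈ D.N) (hZN : Z ∈ D.N) (hSZ : D.S ⊆ Z) {V V' : Type v} [AddCommGroup V] [Module ℂ V]
    [AddCommGroup V'] [Module ℂ V'] [FiniteDimensional ℂ V] [FiniteDimensional ℂ V']
    (ρ : Γ →* (V →ₗ[ℂ] V)) (ρ' : Γ →* (V' →ₗ[ℂ] V')) (h : ∀ g ∈ M, ρ g = 1) (h' : ∀ g ∈ M, ρ' g = 1)
    (hZ : ∀ g ∈ Z, ∀ c ∈ D.S, ρ g * ρ c = ρ c * ρ g) (hZ' : ∀ g ∈ Z, ∀ c ∈ D.S, ρ' g * ρ' c = ρ' c * ρ' g)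
    (hZP : Z ≤ P) (h2 : ∃ n, Z.relIndex P = p ^ n) (a b : ℤ) {v : Γ → ℂ}
    (hv : ∀ g, v g = LinearMap.trace ℂ V (ρ g) - LinearMap.trace ℂ V' (ρ' g) + (a + b * ((θ g : ℂˣ) : ℂ)))
    (h1 : v 1 = 0) (hS : ∀ s ∈ D.S, v s = 0) :
    Fam D (QuadOver D.S) (fun g => ((fp p * P.index : ℕ) : ℂ) * v g) := by
  obtain ⟨f, hfdef⟩ : ∃ f : ℕ, fp p = f := ⟨_, rfl⟩
  have hf0 : (f : ℂ) ≠ 0 := by
    rw [← hfdef]
    exact_mod_cast (fp_pos hpr).ne'
  rw [hfdef]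
  have hSP : D.S ⊆ P := fun s hs => hZP (hSZ hs)
  have hPf : P.FiniteIndex := fin_of_le D hZN hZP
  have hMn := D.normal M hM
  have hZn := D.normal Z hZN
  obtain ⟨Mθ, hMθ, hθ1⟩ := id hθ.1
  -- the restrictions to `P`
  have key : ∀ (W : Type v) [AddCommGroup W] [Module ℂ W] [FiniteDimensional ℂ W] (σ : Γ →* (W →ₗ[ℂ] W)),
      (∀ g ∈ M, σ g = 1) → (∀ g ∈ Z, ∀ c ∈ D.S, σ g * σ c = σ c * σ g) → ∃ ψ : P → ℂ, Lin D P (exz P ψ) ∧
        Fam D (QuadOver D.S) (Ind P (exz P fun p => (f : ℂ) * (LinearMap.trace ℂ W (σ p) - ψ p))) ∧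
        ψ 1 = LinearMap.trace ℂ W (σ 1) ∧ ∀ s (hs : s ∈ D.S), ψ ⟨s, hSP hs⟩ = LinearMap.trace ℂ W (σ s) := by
    intro W _ _ _ σ hσ hσZ
    obtain ⟨ψ, hψ, hf⟩ := p_lin (D.sub hnt P) (sub_up D hnt P) (sub_ntU D hnt P) hpr (M := (M ⊓ Z).subgroupOf P)
      (Z := Z.subgroupOf P)
      ⟨(D.normal _ (D.inf M hM Z hZN)).subgroupOf P, M ⊓ Z, D.inf M hM Z hZN, inf_le_right.trans hZP, le_rfl⟩
      ⟨hZn.subgroupOf P, Z, hZN, hZP, le_rfl⟩ (fun s hs => Subgroup.mem_subgroupOf.2 (hSZ hs))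
      (σ.comp P.subtype) (fun g hg => hσ _ (Subgroup.mem_subgroupOf.1 hg).1)
      (fun g hg c hc => hσZ _ (Subgroup.mem_subgroupOf.1 hg) _ hc) h2
    rw [hfdef] at hf
    obtain ⟨v1, v2⟩ := fam_vanish hf
    refine ⟨ψ, lin_of_sub D hnt hψ, fam_of_sub D hnt hPf hSP hf, ?_, fun s hs => ?_⟩
    · have h3 : (f : ℂ) * (LinearMap.trace ℂ W (σ ((1 : P) : Γ)) - ψ 1) = 0 := v1
      have h4 := (mul_eq_zero.1 h3).resolve_left hf0
      rw [OneMemClass.coe_one, sub_eq_zero] at h4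
      exact h4.symm
    · have h3 : (f : ℂ) * (LinearMap.trace ℂ W (σ s) - ψ ⟨s, hSP hs⟩) = 0 := v2 ⟨s, hSP hs⟩ hs
      have h4 := (mul_eq_zero.1 h3).resolve_left hf0
      rw [sub_eq_zero] at h4
      exact h4.symm
  obtain ⟨ψ, hψ, hf, ψ1, ψS⟩ := key V ρ h hZ
  obtain ⟨ψ', hψ', hf', ψ1', ψS'⟩ := key V' ρ' h' hZ'
  let φ : Γ → ℂ := exz P ψ - exz P ψ' + (a • ext P 1 + b • ext P (resc P θ))
  have hφ : Lin D P φ := lin_add_G1 (lin_sub hψ hψ') (lin_add_G1 (lin_zsmul_G1 _ (lin_ext (opc_one hZN hZP)))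
    (lin_zsmul_G1 _ (lin_ext (opc_resc hZN hZP θ hMθ hθ1))))
  have hφv : ∀ g (hg : g ∈ P), φ g = ψ ⟨g, hg⟩ - ψ' ⟨g, hg⟩ + (a + b * ((θ g : ℂˣ) : ℂ)) := by
    intro g hg
    change (exz P ψ - exz P ψ' + (a • ext P 1 + b • ext P (resc P θ))) g = _
    rw [Pi.add_apply, Pi.sub_apply, Pi.add_apply, Pi.smul_apply, Pi.smul_apply, zsmul_eq_mul, zsmul_eq_mul,
      exz_mem _ hg, exz_mem _ hg, ext_one_apply P hg, ext_resc P θ hg, mul_one]
  have hq : GQ2 D P φ := by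
    refine lin_q2 D hnt hZN hZP hSP hφ ?_ fun s hs => ?_
    · rw [hφv 1 P.one_mem]
      have e1 : (⟨1, P.one_mem⟩ : P) = 1 := rfl
      rw [e1, ψ1, ψ1', ← h1, hv]
    · rw [hφv s (hSP hs), ψS s hs, ψS' s hs, ← hS s hs, hv]
  have hq2 : Fam D (QuadOver D.S) (Ind P φ) := hq
  -- the multiple
  have hop1 : OpC D ⊤ (1 : (⊤ : Subgroup Γ) →* ℂˣ) := ⟨M, hM, le_top, fun _ _ _ => rfl⟩
  have hopθ : OpC D ⊤ (resc ⊤ θ) := opc_resc hM le_top θ hMθ hθ1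
  have hmon : Mon D (fun U => D.S ⊆ U) v := by
    have m1 := comm_mon D hup hnt hM ρ h (wt_top_gen D hM ρ h fun c hc c' hc' => hZ c (hSZ hc) c' hc')
    have m2 := comm_mon D hup hnt hM ρ' h' (wt_top_gen D hM ρ' h' fun c hc c' hc' => hZ' c (hSZ hc) c' hc')
    have m3 := mon_single D (fun U => D.S ⊆ U) (Set.subset_univ _) hop1
    have m4 := mon_single D (fun U => D.S ⊆ U) (Set.subset_univ _) hopθ
    refine mon_congr (mon_add D _ (mon_add D _ m1 (mon_zmul D _ (-1) m2))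
      (mon_add D _ (mon_zmul D _ a m3) (mon_zmul D _ b m4))) fun g => ?_
    rw [hv, ind_top_ext, ind_top_ext]
    change _ = _ + ((a : ℂ) * 1 + (b : ℂ) * ((θ g : ℂˣ) : ℂ))
    push_cast
    ring
  have hp := fam_mono (fun _ h => quadOver_self h) (mon_perm D hup hZN hZP hSP hmon)
  have hcls : ∀ g x, v (x⁻¹ * g * x) = v g := by
    intro g x
    rw [hv, hv, trace_cls, trace_cls, map_mul, map_mul, map_inv, mul_comm (θ x)⁻¹, mul_assoc, inv_mul_cancel, mul_one]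
  refine fam_congr (fam_add D _ (fam_add D _ (fam_add D _ hf (fam_zmul D _ (-1) hf')) (fam_zmul D _ f hq2))
    (fam_zmul D _ (-f) hp)) fun g => ?_
  have e1 := ind_exz_cls (P := P) (v := v) hcls g
  have e2 : (f : ℤ) • exz P (fun p => v p) = exz P (fun p => (f : ℂ) * (LinearMap.trace ℂ V (ρ p) - ψ p)) -
      exz P (fun p => (f : ℂ) * (LinearMap.trace ℂ V' (ρ' p) - ψ' p)) + (f : ℤ) • φ := by
    funext g
    rw [Pi.smul_apply, Pi.add_apply, Pi.sub_apply, Pi.smul_apply, zsmul_eq_mul, zsmul_eq_mul]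
    by_cases hg : g ∈ P
    · rw [exz_mem _ hg, exz_mem _ hg, exz_mem _ hg, hφv g hg, hv]
      push_cast
      ring
    · rw [exz_not_mem _ hg, exz_not_mem _ hg, exz_not_mem _ hg]
      have e3 : φ g = 0 := by
        change (exz P ψ - exz P ψ' + (a • ext P 1 + b • ext P (resc P θ))) g = 0
        rw [Pi.add_apply, Pi.sub_apply, Pi.add_apply, Pi.smul_apply, Pi.smul_apply, exz_not_mem _ hg,
          exz_not_mem _ hg, ext_not_mem _ hg, ext_not_mem _ hg]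
        simp
      rw [e3]
      simp
  have e4 := congrFun (congrArg (Ind P) e2) g
  rw [Ind_add_A2 hPf, Ind_sub_A2 hPf, Ind_smul, Ind_smul, e1] at e4
  push_cast at e4 ⊢
  linear_combination e4

end

end SB
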