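import Pool.Agent.Helper68.OPF.F

/-!
# OPF-G: pairs of sums of stable lines and odd planes
-/

namespace SB

universe u v

variable {Γ : Type u} [Group Γ]

/-- The part of a representation on the sum of the weight spaces of the group generated by `S`. -/
theorem line_part (D : Sys Γ)
    (hup : ∀ M ∈ D.N, ∀ M' : Subgroup Γ, M'.Normal → M ≤ M' → M' ∈ D.N)
    {θ : Γ →* ℂˣ} (hθ : Sgn D θ) {M : Subgroup Γ} (hM : M ∈ D.N) {V : Type v} [AddCommGroup V] [Module ℂ V]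
    [FiniteDimensional ℂ V] (ρ : Γ →* (V →ₗ[ℂ] V)) (h : ∀ g ∈ M, ρ g = 1)
    {m : ℕ} {Y : Fin m → Submodule ℂ V} (hi : iSupIndep Y) (hs : ⨆ i, Y i = ⊤) (hY : ∀ i, LinePiece ρ D.S (Y i)) :
    ∃ (X : Submodule ℂ V) (hX : ∀ g, ∀ v ∈ X, ρ g v ∈ X) (a b : ℤ),
      (∀ g ∈ Subgroup.closure D.S ⊔ M, ∀ c ∈ D.S, subR ρ X hX g * subR ρ X hX c = subR ρ X hX c * subR ρ X hX g) ∧
      (fun g => LinearMap.trace ℂ V (ρ g) - LinearMap.trace ℂ X (subR ρ X hX g) - a - b * ((θ g : ℂˣ) : ℂ)) ∈ PD D := by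
  have hC : (Subgroup.closure D.S).Normal := closure_normal D
  have hMn : M.Normal := D.normal M hM
  have hMf : M.FiniteIndex := D.fin M hM
  have hY' := wt_sup_stb ρ hC
  obtain ⟨Z, hZ', hcompl⟩ := exists_compl ρ hMn hMf h ⊤ (X := ⨆ ε : Subgroup.closure D.S →* ℂˣ, Wt ρ _ ε)
    (fun g _ => hY' g)
  have hZ : ∀ g, ∀ v ∈ Z, ρ g v ∈ Z := fun g => hZ' g (Subgroup.mem_top g)
  obtain ⟨s1, s2⟩ := wt_subR_top ρ hY'
  have hpl : (fun g => LinearMap.trace ℂ Z (subR ρ Z hZ g)) ∈ PDp D θ :=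
    pl_part D hup hθ hM ρ h hcompl hZ (fun X hX => line_irr D ρ hi hs hY hX)
  obtain ⟨a, b, hab⟩ := (mem_pdp D θ).1 hpl
  refine ⟨_, hY', a, b, fun g hg c hc => ?_, ?_⟩
  · obtain ⟨x, hx, y, hy, rfl⟩ := Subgroup.mem_sup_of_normal_left.1 hg
    rw [map_mul, subR_one ρ _ hY' (h y hy), mul_one]
    exact wt_comm_F s1 hx (Subgroup.subset_closure hc)
  · refine (congrArg (· ∈ PD D) (funext fun g => ?_)).mp hab
    rw [trace_compl ρ hcompl hY' hZ g]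
    ring

/-- Two sums of stable lines and odd planes with equal traces on `S`. -/
theorem line_pair (D : Sys Γ)
    (hup : ∀ M ∈ D.N, ∀ M' : Subgroup Γ, M'.Normal → M ≤ M' → M' ∈ D.N) (hnt : NtU D)
    {θ : Γ →* ℂˣ} (hθ : Sgn D θ) {M : Subgroup Γ} (hM : M ∈ D.N) {V V' : Type v} [AddCommGroup V] [Module ℂ V]
    [AddCommGroup V'] [Module ℂ V'] [FiniteDimensional ℂ V] [FiniteDimensional ℂ V']
    (ρ : Γ →* (V →ₗ[ℂ] V)) (ρ' : Γ →* (V' →ₗ[ℂ] V')) (h : ∀ g ∈ M, ρ g = 1) (h' : ∀ g ∈ M, ρ' g = 1)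
    {m : ℕ} {Y : Fin m → Submodule ℂ V} (hi : iSupIndep Y) (hs : ⨆ i, Y i = ⊤) (hY : ∀ i, LinePiece ρ D.S (Y i))
    {m' : ℕ} {Y' : Fin m' → Submodule ℂ V'} (hi' : iSupIndep Y') (hs' : ⨆ i, Y' i = ⊤)
    (hY' : ∀ i, LinePiece ρ' D.S (Y' i))
    (h1 : LinearMap.trace ℂ V (ρ 1) = LinearMap.trace ℂ V' (ρ' 1))
    (hc : ∀ s ∈ D.S, LinearMap.trace ℂ V (ρ s) = LinearMap.trace ℂ V' (ρ' s))
    {L : Subgroup Γ} (hL : L ∈ D.N) (hSL : D.S ⊆ L) (hLC : L ≤ Subgroup.closure D.S ⊔ M) {k : ℕ}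
    (hk : ∀ p : ℕ, p.Prime → p ≠ 2 → p ∣ L.index → p ∣ k) :
    ∃ w w' : Γ → ℂ, Fam D (QuadOver D.S) w ∧ w' ∈ PD D ∧
      ∀ g, (k : ℂ) * (LinearMap.trace ℂ V (ρ g) - LinearMap.trace ℂ V' (ρ' g)) = w g + w' g := by
  obtain ⟨X, hX, a, b, hco, hp⟩ := line_part D hup hθ hM ρ h hi hs hY
  obtain ⟨X', hX', a', b', hco', hp'⟩ := line_part D hup hθ hM ρ' h' hi' hs' hY'
  obtain ⟨z1, zS⟩ := pd_zero_at D hp
  obtain ⟨z1', zS'⟩ := pd_zero_at D hp'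
  have hf := rad_fam D (QuadOver D.S) (v := fun g => LinearMap.trace ℂ X (subR ρ X hX g) -
      LinearMap.trace ℂ X' (subR ρ' X' hX' g) + (((a - a' : ℤ) : ℂ) + ((b - b' : ℤ) : ℂ) * ((θ g : ℂˣ) : ℂ)))
    (D.normal L hL) (D.fin L hL) (fun p hp P hLP h2 => pair_mult D hup hnt hθ hp hM hL hSL (subR ρ X hX) (subR ρ' X' hX')
      (fun g hg => subR_one ρ X hX (h g hg)) (fun g hg => subR_one ρ' X' hX' (h' g hg))
      (fun g hg => hco g (hLC hg)) (fun g hg => hco' g (hLC hg)) hLP h2 (a - a') (b - b') (fun g => rfl) (by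
        push_cast
        linear_combination h1 - z1 + z1') (fun s hsS => by
        push_cast
        linear_combination hc s hsS - zS s hsS + zS' s hsS)) hk
  refine ⟨_, _, hf, AddSubgroup.nsmul_mem _ (AddSubgroup.sub_mem _ hp hp') k, fun g => ?_⟩
  rw [Pi.smul_apply, nsmul_eq_mul, Pi.sub_apply]
  push_cast
  ring

end SB
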