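import Pool.Agent.Helper68.OPF.E
import Pool.Agent.Helper68.OPF.G
import Pool.Agent.Helper68.OP.I1
import Pool.Agent.Helper21.CC.N7

/-!
# OPF-H: the theorems for a system of normal subgroups
-/

namespace SB

open G3

universe u v

/-- For an involution and a plane: both eigenvalues occur if and only if the plane is stable with trace zero. -/
theorem plane_trace_H {V : Type v} [AddCommGroup V] [Module ℂ V] [FiniteDimensional ℂ V] (f : V →ₗ[ℂ] V)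
    (hf : ∀ v, f (f v) = v) {Y : Submodule ℂ V} (hY : Module.finrank ℂ Y = 2) :
    ((∃ v ∈ Y, v ≠ 0 ∧ f v = v) ∧ ∃ v ∈ Y, v ≠ 0 ∧ f v = -v) ↔
      ∃ h : ∀ v ∈ Y, f v ∈ Y, LinearMap.trace ℂ Y (f.restrict h) = 0 := by
  constructor
  · rintro ⟨⟨v, hv, hv0, hfv⟩, w, hw, hw0, hfw⟩
    have hli : LinearIndependent ℂ ![(⟨v, hv⟩ : Y), ⟨w, hw⟩] := by
      rw [LinearIndependent.pair_iff]
      intro a b hab
      have h1 : a • v + b • w = 0 := congrArg Subtype.val hab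
      have h2 : a • v - b • w = 0 := by
        have h3 := congrArg f h1
        rw [map_add, map_smul, map_smul, hfv, hfw, map_zero, smul_neg, ← sub_eq_add_neg] at h3
        exact h3
      have h3 : (2 : ℂ) • (a • v) = 0 := by
        have : (2 : ℂ) • (a • v) = (a • v + b • w) + (a • v - b • w) := by rw [two_smul]; abel
        rw [this, h1, h2, add_zero]
      have h4 : (2 : ℂ) • (b • w) = 0 := by
        have : (2 : ℂ) • (b • w) = (a • v + b • w) - (a • v - b • w) := by rw [two_smul]; abel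
        rw [this, h1, h2, sub_zero]
      have h5 : a • v = 0 := (smul_eq_zero.1 h3).resolve_left two_ne_zero
      have h6 : b • w = 0 := (smul_eq_zero.1 h4).resolve_left two_ne_zero
      exact ⟨(smul_eq_zero.1 h5).resolve_right hv0, (smul_eq_zero.1 h6).resolve_right hw0⟩
    let b := basisOfLinearIndependentOfCardEqFinrank hli (by rw [Fintype.card_fin, hY])
    have hb : ⇑b = ![(⟨v, hv⟩ : Y), ⟨w, hw⟩] := coe_basisOfLinearIndependentOfCardEqFinrank _ _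
    have hb0 : (b 0 : V) = v := by rw [hb]; rfl
    have hb1 : (b 1 : V) = w := by rw [hb]; rfl
    have hst : ∀ y ∈ Y, f y ∈ Y := by
      intro y hy
      have h1 := congrArg Subtype.val (b.sum_repr ⟨y, hy⟩)
      rw [Fin.sum_univ_two] at h1
      change b.repr ⟨y, hy⟩ 0 • (b 0 : V) + b.repr ⟨y, hy⟩ 1 • (b 1 : V) = y at h1
      rw [← h1, map_add, map_smul, map_smul, hb0, hb1, hfv, hfw]
      exact Y.add_mem (Y.smul_mem _ hv) (Y.smul_mem _ (Y.neg_mem hw))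
    refine ⟨hst, ?_⟩
    rw [LinearMap.trace_eq_matrix_trace ℂ b, Matrix.trace_fin_two, LinearMap.toMatrix_apply, LinearMap.toMatrix_apply]
    have e0 : f.restrict hst (b 0) = b 0 := Subtype.ext (by
      change f (b 0 : V) = b 0
      rw [hb0, hfv])
    have e1 : f.restrict hst (b 1) = -b 1 := Subtype.ext (by
      change f (b 1 : V) = -(b 1 : V)
      rw [hb1, hfw])
    rw [e0, e1, map_neg, b.repr_self, b.repr_self]
    simp
  · rintro ⟨h, h0⟩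
    have htr : ∀ z : ℂ, z ≠ 0 → ¬ ∀ y : Y, f.restrict h y = z • y := by
      intro z hz hall
      have e : f.restrict h = z • LinearMap.id := LinearMap.ext hall
      rw [e, map_smul, LinearMap.trace_id, hY] at h0
      simp only [smul_eq_mul, mul_eq_zero] at h0
      rcases h0 with h1 | h1
      · exact hz h1
      · norm_num at h1
    constructor
    · by_contra hcon
      push Not at hcon
      refine htr (-1) (by norm_num) fun y => ?_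
      have h1 : (y : V) + f y = 0 := by
        by_contra hne
        exact hcon ((y : V) + f y) (Y.add_mem y.2 (h y y.2)) hne (by rw [map_add, hf, add_comm])
      apply Subtype.ext
      change f (y : V) = (-1 : ℂ) • (y : V)
      rw [neg_smul, one_smul]
      exact eq_neg_of_add_eq_zero_right h1
    · by_contra hcon
      push Not at hcon
      refine htr 1 one_ne_zero fun y => ?_
      have h1 : (y : V) - f y = 0 := by
        by_contra hne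
        exact hcon ((y : V) - f y) (Y.sub_mem y.2 (h y y.2)) hne (by rw [map_sub, hf, neg_sub])
      apply Subtype.ext
      change f (y : V) = (1 : ℂ) • (y : V)
      rw [one_smul]
      exact (sub_eq_zero.1 h1).symm

section
variable {Γ : Type u} [Group Γ]

theorem act_lin {d : ℕ} (ρ : Rp Γ d) (g : Γ) (v : Fin d → ℂ) : act ρ g v = lin ρ g v := rfl

theorem lin_sq (D : Sys Γ) {d : ℕ} (ρ : Rp Γ d) {c : Γ} (hc : c ∈ D.S) (v : Fin d → ℂ) :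
    lin ρ c (lin ρ c v) = v := by
  rw [← Module.End.mul_apply, ← map_mul, D.sq c hc, map_one]
  rfl

theorem oddPlane_iff_H (D : Sys Γ) {d : ℕ} (ρ : Rp Γ d) (Y : Submodule ℂ (Fin d → ℂ)) :
    OddPlane D.S ρ Y ↔ PlanePc (lin ρ) D.S Y :=
  ⟨fun h => ⟨h.1, fun s hs => (plane_trace_H (lin ρ s) (lin_sq D ρ hs) h.1).1 (h.2 s hs)⟩,
    fun h => ⟨h.1, fun s hs => (plane_trace_H (lin ρ s) (lin_sq D ρ hs) h.1).2 (h.2 s hs)⟩⟩

theorem oddSums_iff (D : Sys Γ) {d : ℕ} (ρ : Rp Γ d) : OddSums D.S ρ ↔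
    ∃ (m : ℕ) (Y : Fin m → Submodule ℂ (Fin d → ℂ)), iSupIndep Y ∧ ⨆ i, Y i = ⊤ ∧
      ∀ i, SignPc (lin ρ) D.S (Y i) ∨ PlanePc (lin ρ) D.S (Y i) := by
  constructor
  · rintro ⟨m, Y, h1, h2, h3⟩
    exact ⟨m, Y, h1, h2, fun i => (h3 i).imp id (oddPlane_iff_H D ρ _).1⟩
  · rintro ⟨m, Y, h1, h2, h3⟩
    exact ⟨m, Y, h1, h2, fun i => (h3 i).imp id (oddPlane_iff_H D ρ _).2⟩

theorem lineSums_iff (D : Sys Γ) {d : ℕ} (ρ : Rp Γ d) : LineSums D.S ρ ↔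
    ∃ (m : ℕ) (Y : Fin m → Submodule ℂ (Fin d → ℂ)), iSupIndep Y ∧ ⨆ i, Y i = ⊤ ∧
      ∀ i, LinePiece (lin ρ) D.S (Y i) := by
  constructor
  · rintro ⟨m, Y, h1, h2, h3⟩
    refine ⟨m, Y, h1, h2, fun i => ?_⟩
    rcases h3 i with h4 | h4
    · exact ⟨h4.2, Or.inl h4.1⟩
    · obtain ⟨h5, h6⟩ := (oddPlane_iff_H D ρ (Y i)).1 h4
      exact ⟨fun s hs => (h6 s hs).1, Or.inr ⟨h5, fun s hs => (h6 s hs).2⟩⟩
  · rintro ⟨m, Y, h1, h2, h3⟩
    refine ⟨m, Y, h1, h2, fun i => ?_⟩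
    obtain ⟨h4, h5 | ⟨h5, h6⟩⟩ := h3 i
    · exact Or.inl ⟨h5, h4⟩
    · exact Or.inr ((oddPlane_iff_H D ρ (Y i)).2 ⟨h5, fun s hs => ⟨h4 s hs, h6 s hs⟩⟩)

/-- Representations of degree one are determined by their traces. -/
theorem rp_one_eq_H {G : Type*} [Group G] (ψ ψ' : Rp G 1) {g g' : G} (h : chr ψ g = chr ψ' g') : ψ g = ψ' g' := by
  apply Units.ext
  ext i j
  rw [Subsingleton.elim i 0, Subsingleton.elim j 0]
  simpa [chr, Matrix.trace] using h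

theorem planePair_of_ppair_H {D : Sys Γ} {M U : Subgroup Γ} {e : ℕ} {ψ ψ' : Rp U e} (hMU : M ≤ U)
    (h : PPair D U e ψ ψ') (ht : ∀ g (h : g ∈ U), g ∈ M → ψ ⟨g, h⟩ = 1 ∧ ψ' ⟨g, h⟩ = 1) :
    PlanePair D.S M U e ψ ψ' := by
  obtain ⟨hS, -, h1 | ⟨h1, h3⟩, h2⟩ := h
  · subst h1
    exact ⟨hS, hMU, ht, Or.inl ⟨rfl, fun s hs hsS => rp_one_eq_H ψ ψ' (h2 s hs hsS)⟩⟩
  · refine ⟨hS, hMU, ht, Or.inr ⟨h1, fun s hs hsS => ⟨h3 s hs hsS, ?_⟩⟩⟩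
    rw [← h2 s hs hsS]
    exact h3 s hs hsS

theorem ppair_of_planePair_H {D : Sys Γ} {N M U : Subgroup Γ} {e : ℕ} {ψ ψ' : Rp U e} (hM : M ∈ D.N) (hMN : M ≤ N)
    (h : PlanePair D.S N U e ψ ψ') : PPair D U e ψ ψ' := by
  obtain ⟨hS, hNU, ht, h1⟩ := h
  refine ⟨hS, ⟨M, hM, hMN.trans hNU, fun g hg hgM => ht g hg (hMN hgM)⟩, ?_, ?_⟩
  · rcases h1 with h1 | ⟨h1, h2⟩
    · exact Or.inl h1.1
    · exact Or.inr ⟨h1, fun s hs hsS => (h2 s hs hsS).1⟩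
  · intro s hs hsS
    rcases h1 with h1 | ⟨h1, h2⟩
    · rw [chr, chr, h1.2 s hs hsS]
    · rw [(h2 s hs hsS).1, (h2 s hs hsS).2]

theorem planeComb_mono_H {S : Set Γ} {N N' : Subgroup Γ} (hN : N' ≤ N) {v : Γ → ℂ} (h : PlaneComb S N v) :
    PlaneComb S N' v := by
  obtain ⟨m, n, U, e, ψ, ψ', h1, h2⟩ := h
  exact ⟨m, n, U, e, ψ, ψ', fun i => ⟨(h1 i).1, hN.trans (h1 i).2.1, fun g hg hgN => (h1 i).2.2.1 g hg (hN hgN),
    (h1 i).2.2.2⟩, h2⟩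

theorem pd_of_planeComb_H {D : Sys Γ} {N M : Subgroup Γ} (hM : M ∈ D.N) (hMN : M ≤ N) {v : Γ → ℂ}
    (h : PlaneComb D.S N v) : v ∈ PD D := by
  obtain ⟨m, n, U, e, ψ, ψ', h1, h2⟩ := h
  have e1 : v = ∑ i, n i • (Ind (U i) (exz (U i) (chr (ψ i))) - Ind (U i) (exz (U i) (chr (ψ' i)))) := by
    funext g
    rw [h2 g, Finset.sum_apply]
    exact Finset.sum_congr rfl fun i _ => by rw [Pi.smul_apply, zsmul_eq_mul]; rfl
  rw [e1]
  refine AddSubgroup.sum_mem _ fun i _ => AddSubgroup.zsmul_mem _ (AddSubgroup.subset_closure ?_) _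
  exact ⟨U i, e i, ψ i, ψ' i, ppair_of_planePair_H hM hMN (h1 i), rfl⟩

theorem planeComb_of_pd (D : Sys Γ) (hne : D.N.Nonempty) {v : Γ → ℂ} (h : v ∈ PD D) :
    ∃ M ∈ D.N, PlaneComb D.S M v := by
  obtain ⟨M, hM, m, n, U, e, ψ, ψ', h1, h2⟩ := pd_explicit D hne h
  exact ⟨M, hM, m, n, U, e, ψ, ψ', fun i => planePair_of_ppair_H (h1 i).1 (h1 i).2.1 (h1 i).2.2, h2⟩

theorem sigQuad_mono {S : Set Γ} {N N' : Subgroup Γ} (hN : N' ≤ N) {v : Γ → ℂ}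
    (h : SigQuad S N v) : SigQuad S N' v := by
  obtain ⟨m, n, U, χ, χ', h1, h2⟩ := h
  refine ⟨m, n, U, χ, χ', fun i => ?_, h2⟩
  obtain ⟨a1, a2, a3, a4, a5⟩ := h1 i
  exact ⟨a1, hN.trans a2, fun g hg hgN => a3 g hg (hN hgN), fun g hg hgN => a4 g hg (hN hgN), a5⟩

theorem sigQuad_of_fam {D : Sys Γ} (hne : D.N.Nonempty) {v : Γ → ℂ} (h : Fam D (QuadOver D.S) v) :
    ∃ M ∈ D.N, SigQuad D.S M v := by
  obtain ⟨M, hM⟩ := hne
  obtain ⟨m, n, U, χ, χ', hPU, h1, h2, h3, h4⟩ := h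
  choose M1 hM1 hM1U hM1χ using h1
  choose M2 hM2 hM2U hM2χ using h2
  obtain ⟨M', hM', hle, hcom⟩ := exists_common D hM (fun i => M1 i ⊓ M2 i) fun i => D.inf _ (hM1 i) _ (hM2 i)
  exact ⟨M', hM', m, n, U, χ, χ', fun i => ⟨hPU i, (hcom i).trans (inf_le_left.trans (hM1U i)),
    fun g hg hgN => hM1χ i g hg (hcom i hgN).1, fun g hg hgN => hM2χ i g hg (hcom i hgN).2,
    fun c hc hS => h3 i c hc hS⟩, h4⟩

theorem chr_lin {d : ℕ} (ρ : Rp Γ d) : (fun g => LinearMap.trace ℂ _ (lin ρ g)) = chr ρ :=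
  funext fun g => trace_lin ρ g

theorem chr_one_H {d : ℕ} (ρ : Rp Γ d) : chr ρ 1 = d := by
  rw [chr, map_one, Units.val_one, Matrix.trace_one, Fintype.card_fin]

variable (D : Sys Γ)

/-- The trace is in `LPD`. -/
theorem chr_lpd (hup : ∀ M ∈ D.N, ∀ M' : Subgroup Γ, M'.Normal → M ≤ M' → M' ∈ D.N) (hnt : NtU D)
    {θ : Γ →* ℂˣ} (hθ : Sgn D θ) {M : Subgroup Γ} (hM : M ∈ D.N) {d : ℕ} (ρ : Rp Γ d) (h : ∀ g ∈ M, ρ g = 1)
    (ho : OddSums D.S ρ) : chr ρ ∈ LPD D := by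
  by_cases hS : D.S.Nonempty
  · obtain ⟨m, Y, h1, h2, h3⟩ := (oddSums_iff D ρ).1 ho
    have h4 := op_main' D hup hnt hS hθ hM (lin ρ) (fun g hg => lin_one ρ (h g hg)) h1 h2 h3
    rwa [chr_lin] at h4
  · have hS' : D.S = ∅ := Set.not_nonempty_iff_eq_empty.1 hS
    have hf := famGeneral D hM (lin ρ) (1 : Γ →* ((Fin d → ℂ) →ₗ[ℂ] (Fin d → ℂ))) (fun g hg => lin_one ρ (h g hg))
      (fun _ _ => rfl) rfl (fun s hs => absurd ⟨s, hs⟩ hS)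
    have h1 := pd_of_fam D (fam_mono (fun U _ => by rw [hS']; exact Set.empty_subset _) hf)
    refine lpd_of_explicit D (m := 1) (fun _ => (d : ℤ)) (fun _ => 1) (fun _ => ⟨M, hM, fun _ _ => rfl⟩) ?_
    refine (congrArg (· ∈ PD D) (funext fun g => ?_)).mp h1
    rw [trace_lin, MonoidHom.one_apply, LinearMap.trace_one, Module.finrank_fin_fun]
    simp

/-- The first equivalence. -/
theorem gen_iff (hup : ∀ M ∈ D.N, ∀ M' : Subgroup Γ, M'.Normal → M ≤ M' → M' ∈ D.N) (hnt : NtU D)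
    {θ : Γ →* ℂˣ} (hθ : Sgn D θ) {M : Subgroup Γ} (hM : M ∈ D.N) {d : ℕ} (ρ : Rp Γ d) (h : ∀ g ∈ M, ρ g = 1) :
    OddSums D.S ρ ↔ ∃ N ∈ D.N, LinComb D.S N (chr ρ) := by
  constructor
  · intro ho
    obtain ⟨m, n, η, hη, hp⟩ := lpd_explicit D (chr_lpd D hup hnt hθ hM ρ h ho)
    choose Mη hMη hη1 using hη
    obtain ⟨M', hM', -, hcom⟩ := exists_common D hM Mη hMη
    obtain ⟨M'', hM'', hpc⟩ := planeComb_of_pd D ⟨M, hM⟩ hp
    exact ⟨M' ⊓ M'', D.inf _ hM' _ hM'', m, n, η, fun i g hg => hη1 i g (hcom i hg.1),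
      planeComb_mono_H inf_le_right hpc⟩
  · rintro ⟨N, hN, m, n, η, hη, hp⟩
    have h1 : (fun g => LinearMap.trace ℂ (Fin d → ℂ) (lin ρ g)) ∈ LPD D := by
      rw [chr_lin]
      exact lpd_of_explicit D n η (fun i => ⟨N, hN, hη i⟩) (pd_of_planeComb_H hN le_rfl hp)
    have h2 : ∀ g ∈ M, lin ρ g = 1 := fun g hg => lin_one ρ (h g hg)
    obtain ⟨M₁, hM₁, hc⟩ := oddComb_of_lpd D ⟨M, hM⟩ h1
    exact (oddSums_iff D ρ).2 (odd_of_irr D hθ.2 hM (lin ρ) h2 (fun X hX => conv_irr' D hM hM₁ (lin ρ) h2 hc hX)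
      fun ε hε => conv_mult' D hθ hM (lin ρ) h2 h1 ε hε)

/-- The second equivalence. -/
theorem gen_line_iff (hup : ∀ M ∈ D.N, ∀ M' : Subgroup Γ, M'.Normal → M ≤ M' → M' ∈ D.N) (hnt : NtU D)
    {θ : Γ →* ℂˣ} (hθ : Sgn D θ) {M : Subgroup Γ} (hM : M ∈ D.N) {d : ℕ} (ρ : Rp Γ d) (h : ∀ g ∈ M, ρ g = 1) :
    LineSums D.S ρ ↔ ∃ N ∈ D.N, OddComb D.S N (chr ρ) := by
  have h2 : ∀ g ∈ M, lin ρ g = 1 := fun g hg => lin_one ρ (h g hg)
  constructor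
  · intro ho
    obtain ⟨m, Y, a1, a2, a3⟩ := (lineSums_iff D ρ).1 ho
    obtain ⟨w, hw, hp⟩ := line_main D hup hnt hθ hM (lin ρ) h2 a1 a2 a3
    obtain ⟨M₁, hM₁, hc⟩ := oddComb_of_pd D ⟨M, hM⟩ hp
    obtain ⟨k, n, U, χ, b1, b2, b3⟩ := hw
    choose M2 hM2 hM2U hM2χ using b2
    obtain ⟨M', hM', -, hcom⟩ := exists_common D hM M2 hM2
    choose ψ hψ hψ1 using fun i => exists_rp_one (χ i)
    have hc2 : OddComb D.S M' w := by
      refine ⟨k, n, U, fun _ => 1, ψ, fun i => ⟨b1 i, (hcom i).trans (hM2U i), fun g hg hgM =>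
        hψ1 i _ (hM2χ i g hg (hcom i hgM)), Or.inl rfl⟩, fun g => ?_⟩
      rw [b3 g]
      refine Finset.sum_congr rfl fun i _ => ?_
      rw [IndRep, OPA1.exz_eq_ext _ _ (ψ i) (hψ i)]
    refine ⟨M₁ ⊓ M', D.inf _ hM₁ _ hM', ?_⟩
    have h5 := oddComb_add (oddComb_mono (inf_le_left (b := M')) hc) (oddComb_mono (inf_le_right (a := M₁)) hc2)
    refine (congrArg (OddComb D.S (M₁ ⊓ M')) (funext fun g => ?_)).mp h5
    rw [sub_add_cancel, trace_lin]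
  · rintro ⟨N, hN, hc⟩
    rw [← chr_lin] at hc
    exact (lineSums_iff D ρ).2 (line_of_irr D hθ.2 hM (lin ρ) h2 fun X hX => conv_irr' D hM hN (lin ρ) h2 hc hX)

/-- Pairs. -/
theorem gen_pair (hup : ∀ M ∈ D.N, ∀ M' : Subgroup Γ, M'.Normal → M ≤ M' → M' ∈ D.N) (hnt : NtU D)
    {θ : Γ →* ℂˣ} (hθ : Sgn D θ) {M : Subgroup Γ} (hM : M ∈ D.N) {d : ℕ} (ρ ρ' : Rp Γ d) (h : ∀ g ∈ M, ρ g = 1)
    (h' : ∀ g ∈ M, ρ' g = 1) (ho : OddSums D.S ρ) (ho' : OddSums D.S ρ') (hc : ∀ s ∈ D.S, chr ρ s = chr ρ' s) :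
    ∃ N ∈ D.N, QuadComb D.S N (fun g => chr ρ g - chr ρ' g) := by
  obtain ⟨w, w', hw, hw', e⟩ := lpd_zero D hnt ⟨M, hM⟩ (v := fun g => chr ρ g - chr ρ' g)
    (AddSubgroup.sub_mem _ (chr_lpd D hup hnt hθ hM ρ h ho) (chr_lpd D hup hnt hθ hM ρ' h' ho'))
    (by rw [chr_one_H, chr_one_H, sub_self]) fun s hs => sub_eq_zero.2 (hc s hs)
  obtain ⟨N, hN, hs⟩ := sigQuad_of_fam ⟨M, hM⟩ hw
  obtain ⟨N', hN', hp⟩ := planeComb_of_pd D ⟨M, hM⟩ hw'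
  exact ⟨N ⊓ N', D.inf _ hN _ hN', w, w', sigQuad_mono inf_le_left hs, planeComb_mono_H inf_le_right hp, e⟩

/-- Pairs, if `S` is one class. -/
theorem gen_pair_one (hup : ∀ M ∈ D.N, ∀ M' : Subgroup Γ, M'.Normal → M ≤ M' → M' ∈ D.N) (hnt : NtU D)
    (hone : ∀ s ∈ D.S, ∀ s' ∈ D.S, ∃ g, s' = g * s * g⁻¹)
    {θ : Γ →* ℂˣ} (hθ : Sgn D θ) {M : Subgroup Γ} (hM : M ∈ D.N) {d : ℕ} (ρ ρ' : Rp Γ d) (h : ∀ g ∈ M, ρ g = 1)
    (h' : ∀ g ∈ M, ρ' g = 1) (ho : OddSums D.S ρ) (ho' : OddSums D.S ρ') (hc : ∀ s ∈ D.S, chr ρ s = chr ρ' s) :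
    ∃ N ∈ D.N, PlaneComb D.S N (fun g => chr ρ g - chr ρ' g) := by
  have h1 : (fun g => chr ρ g - chr ρ' g) ∈ LPD D :=
    AddSubgroup.sub_mem _ (chr_lpd D hup hnt hθ hM ρ h ho) (chr_lpd D hup hnt hθ hM ρ' h' ho')
  have h2 : (fun g => chr ρ g - chr ρ' g) 1 = 0 := by beta_reduce; rw [chr_one_H, chr_one_H, sub_self]
  have h3 : ∀ s ∈ D.S, (fun g => chr ρ g - chr ρ' g) s = 0 := fun s hs => sub_eq_zero.2 (hc s hs)
  refine planeComb_of_pd D ⟨M, hM⟩ ?_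
  by_cases hS : D.S.Nonempty
  · exact lpd_zero_one D hS hone hθ h1 h2 h3
  · have hS' : D.S = ∅ := Set.not_nonempty_iff_eq_empty.1 hS
    obtain ⟨w, w', hw, hw', e⟩ := lpd_zero D hnt ⟨M, hM⟩ h1 h2 h3
    have h4 := pd_of_fam D (fam_mono (Q := fun U => D.S ⊆ U) (fun U _ => by rw [hS']; exact Set.empty_subset _) hw)
    refine (congrArg (· ∈ PD D) (funext fun g => (e g).symm)).mp (AddSubgroup.add_mem _ h4 hw')

/-- Pairs of sums of lines and odd planes. -/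
theorem gen_line_pair (hup : ∀ M ∈ D.N, ∀ M' : Subgroup Γ, M'.Normal → M ≤ M' → M' ∈ D.N) (hnt : NtU D)
    {θ : Γ →* ℂˣ} (hθ : Sgn D θ) {M : Subgroup Γ} (hM : M ∈ D.N) {d : ℕ} (ρ ρ' : Rp Γ d) (h : ∀ g ∈ M, ρ g = 1)
    (h' : ∀ g ∈ M, ρ' g = 1) (ho : LineSums D.S ρ) (ho' : LineSums D.S ρ') (hc : ∀ s ∈ D.S, chr ρ s = chr ρ' s)
    {k : ℕ} (hk : ∀ p : ℕ, p.Prime → p ≠ 2 → p ∣ (Subgroup.closure D.S ⊔ M).index → p ∣ k) :
    ∃ N ∈ D.N, QuadComb D.S N (fun g => (k : ℂ) * (chr ρ g - chr ρ' g)) := by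
  have hC : (Subgroup.closure D.S).Normal := closure_normal D
  have hMn : M.Normal := D.normal M hM
  have hLn : (Subgroup.closure D.S ⊔ M).Normal := Subgroup.sup_normal _ _
  have hL : Subgroup.closure D.S ⊔ M ∈ D.N := hup M hM _ hLn le_sup_right
  obtain ⟨m, Y, a1, a2, a3⟩ := (lineSums_iff D ρ).1 ho
  obtain ⟨m', Y', a1', a2', a3'⟩ := (lineSums_iff D ρ').1 ho'
  obtain ⟨w, w', hw, hw', e⟩ := line_pair D hup hnt hθ hM (lin ρ) (lin ρ') (fun g hg => lin_one ρ (h g hg))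
    (fun g hg => lin_one ρ' (h' g hg)) a1 a2 a3 a1' a2' a3' (by rw [trace_lin, trace_lin, chr_one_H, chr_one_H])
    (fun s hs => by rw [trace_lin, trace_lin, hc s hs]) hL
    (Subgroup.subset_closure.trans (SetLike.coe_subset_coe.2 le_sup_left)) le_rfl hk
  obtain ⟨N, hN, hs⟩ := sigQuad_of_fam ⟨M, hM⟩ hw
  obtain ⟨N', hN', hp⟩ := planeComb_of_pd D ⟨M, hM⟩ hw'
  refine ⟨N ⊓ N', D.inf _ hN _ hN', _, _, sigQuad_mono inf_le_left hs, planeComb_mono_H inf_le_right hp, fun g => ?_⟩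
  rw [← e g, trace_lin, trace_lin]

end

end SB
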