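import Pool.Agent.Helper68.OPF.H

/-!
# OPF-I: combinations of characters induced from irreducible subspaces
-/

namespace SB

open G3

universe u v

theorem act_matRep_I {G : Type*} [Group G] {X : Type*} [AddCommGroup X] [Module ℂ X] [FiniteDimensional ℂ X]
    (τ : G →* (X →ₗ[ℂ] X)) (g : G) (v : Fin (Module.finrank ℂ X) → ℂ) :
    (Module.finBasis ℂ X).equivFun.symm (act (matRep τ) g v) = τ g ((Module.finBasis ℂ X).equivFun.symm v) := by
  rw [LinearEquiv.symm_apply_eq]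
  have h := LinearMap.toMatrix_mulVec_repr (Module.finBasis ℂ X) (Module.finBasis ℂ X) (τ g)
    ((Module.finBasis ℂ X).equivFun.symm v)
  have h2 : ⇑((Module.finBasis ℂ X).repr ((Module.finBasis ℂ X).equivFun.symm v)) = v :=
    (Module.finBasis ℂ X).equivFun.apply_symm_apply v
  rw [h2] at h
  exact h

variable {Γ : Type u} [Group Γ]

/-- `ψ` is isomorphic to the restriction of `ρ` to `U` and a stable subspace. -/
def SubOf (U : Subgroup Γ) {e d : ℕ} (ψ : Rp U e) (ρ : Rp Γ d) : Prop :=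
  ∃ f : (Fin e → ℂ) →ₗ[ℂ] (Fin d → ℂ), Function.Injective f ∧ ∀ (u : U) (v : Fin e → ℂ), f (act ψ u v) = act ρ u (f v)

/-- `ℂ^e` is not zero, and has no subspace, except zero and itself, stable under the `ψ s`, `s ∈ S`. -/
def IrrRep (S : Set Γ) (U : Subgroup Γ) {e : ℕ} (ψ : Rp U e) : Prop :=
  0 < e ∧ ∀ Y : Submodule ℂ (Fin e → ℂ), (∀ s (h : s ∈ U), s ∈ S → ∀ v ∈ Y, act ψ ⟨s, h⟩ v ∈ Y) → Y = ⊥ ∨ Y = ⊤

/-- The character of `ρ` is an integral combination of characters `Ind ψ`, `ψ` a subrepresentation of the restriction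
of `ρ` to a subgroup containing `S` and the kernel of `ρ`, with `ψ` irreducible under `S`. -/
def RelDecomp (S : Set Γ) {d : ℕ} (ρ : Rp Γ d) : Prop :=
  ∃ (m : ℕ) (n : Fin m → ℤ) (U : Fin m → Subgroup Γ) (e : Fin m → ℕ) (ψ : ∀ i, Rp (U i) (e i)),
    (∀ i, S ⊆ U i ∧ ρ.ker ≤ U i ∧ SubOf (U i) (ψ i) ρ ∧ IrrRep S (U i) (ψ i)) ∧
    ∀ g, chr ρ g = ∑ i, (n i : ℂ) * IndRep (U i) (ψ i) g

/-- From stable subspaces to representations. -/
theorem relDecomp_of_I (D : Sys Γ) {d : ℕ} (ρ : Rp Γ d) {m : ℕ} (n : Fin m → ℤ) (U : Fin m → Subgroup Γ)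
    (X : Fin m → Submodule ℂ (Fin d → ℂ)) (h1 : ∀ i, D.S ⊆ U i ∧ ρ.ker ≤ U i)
    (hst : ∀ i, Stb (lin ρ) (U i) (X i)) (hirr : ∀ i, IrrOn (lin ρ) (Subgroup.closure D.S) (X i))
    (hs : ∀ g, chr ρ g = ∑ i, (n i : ℂ) * Ind (U i) (trx (lin ρ) (U i) (X i)) g) : RelDecomp D.S ρ := by
  refine ⟨m, n, U, fun i => Module.finrank ℂ (X i), fun i => matRep (resRep (lin ρ) (U i) (X i) (hst i)),
    fun i => ⟨(h1 i).1, (h1 i).2, ?_, ?_⟩, fun g => ?_⟩
  · refine ⟨(X i).subtype.comp ((Module.finBasis ℂ (X i)).equivFun.symm : _ →ₗ[ℂ] X i),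
      Subtype.val_injective.comp (Module.finBasis ℂ (X i)).equivFun.symm.injective, fun u v => ?_⟩
    change (((Module.finBasis ℂ (X i)).equivFun.symm (act (matRep (resRep (lin ρ) (U i) (X i) (hst i))) u v) : X i) :
      Fin d → ℂ) = _
    rw [act_matRep_I]
    rfl
  · refine ⟨?_, fun Y hY => ?_⟩
    · rw [Module.finrank_pos_iff, Submodule.nontrivial_iff_ne_bot]
      exact (hirr i).1
    · let f : (Fin (Module.finrank ℂ (X i)) → ℂ) →ₗ[ℂ] (Fin d → ℂ) :=
        (X i).subtype.comp ((Module.finBasis ℂ (X i)).equivFun.symm : _ →ₗ[ℂ] X i)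
      have hf : Function.Injective f :=
        Subtype.val_injective.comp (Module.finBasis ℂ (X i)).equivFun.symm.injective
      have hfe : ∀ (u : U i) v, f (act (matRep (resRep (lin ρ) (U i) (X i) (hst i))) u v) = lin ρ u (f v) := by
        intro u v
        change (((Module.finBasis ℂ (X i)).equivFun.symm (act (matRep (resRep (lin ρ) (U i) (X i) (hst i))) u v) :
          X i) : Fin d → ℂ) = _
        rw [act_matRep_I]
        rfl
      have hle : Y.map f ≤ X i := by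
        rintro _ ⟨y, -, rfl⟩
        exact ((Module.finBasis ℂ (X i)).equivFun.symm y).2
      have hstab : Stb (lin ρ) (Subgroup.closure D.S) (Y.map f) := by
        refine stb_closure D fun s hs => ?_
        rintro _ ⟨y, hy, rfl⟩
        exact ⟨_, hY s ((h1 i).1 hs) hs y hy, hfe ⟨s, (h1 i).1 hs⟩ y⟩
      rcases (hirr i).2.2 _ hle hstab with h2 | h2
      · left
        apply Submodule.map_injective_of_injective hf
        rw [h2, Submodule.map_bot]
      · right
        apply Submodule.eq_top_of_finrank_eq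
        have h3 := LinearEquiv.finrank_eq (Submodule.equivMapOfInjective f hf Y)
        rw [h3, h2, Module.finrank_fin_fun]
  · rw [hs g]
    refine Finset.sum_congr rfl fun i _ => ?_
    have e : (fun u => LinearMap.trace ℂ (X i) (resRep (lin ρ) (U i) (X i) (hst i) u)) =
        chr (matRep (resRep (lin ρ) (U i) (X i) (hst i))) := funext fun u => (chr_matRep _ u).symm
    rw [trx_eq_res _ _ _ (hst i), e]
    rfl

theorem irr_of_sup_I {V : Type*} [AddCommGroup V] [Module ℂ V] {ρ : Γ →* (V →ₗ[ℂ] V)}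
    {C M : Subgroup Γ} (hC : C.Normal) (h : ∀ g ∈ M, ρ g = 1) {X : Submodule ℂ V} (hX : IrrOn ρ (C ⊔ M) X) :
    IrrOn ρ C X :=
  ⟨hX.1, fun g hg => hX.2.1 g (Subgroup.mem_sup_left hg), fun Y hY hst => hX.2.2 Y hY (op_stb_sup h hst hC)⟩

theorem gen_rel (D : Sys Γ) {d : ℕ} (ρ : Rp Γ d) (hf : ρ.ker.FiniteIndex) : RelDecomp D.S ρ := by
  have hC : (Subgroup.closure D.S).Normal := closure_normal D
  have hn : ρ.ker.Normal := inferInstance
  have h1 : ∀ g ∈ ρ.ker, lin ρ g = 1 := fun g hg => lin_one ρ hg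
  obtain ⟨m, n, U, X, hX, hsum⟩ := rel_brauer (lin ρ) hn hf (Subgroup.sup_normal _ _)
    (le_sup_right : ρ.ker ≤ Subgroup.closure D.S ⊔ ρ.ker) h1
  refine relDecomp_of_I D ρ n U X (fun i => ⟨fun c hc => (hX i).1 (Subgroup.mem_sup_left (Subgroup.subset_closure hc)),
    le_sup_right.trans (hX i).1⟩) (fun i => (hX i).2.1) (fun i => irr_of_sup_I hC h1 (hX i).2.2) fun g => ?_
  have h2 := hsum g
  beta_reduce at h2
  rw [trace_lin] at h2
  exact h2

end SB
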