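import Pool.Agent.Helper68.OPF.H
import Pool.Agent.Helper21.SBF.M1
import Pool.Agent.Helper21.SBF.M2
import Pool.Agent.Helper21.SBF.M3

/-!
# OPF-K: the absolute Galois group of a number field
-/

namespace SB

section Gen

variable {G : Type*} [Group G]

theorem solExt_K (M M' : Subgroup G) [M.Normal] [M'.Normal] (hs : Group.IsSolvable (G ⧸ M)) (hle : M' ≤ M)
    (hc : ∀ a ∈ M, ∀ b ∈ M, a * b * a⁻¹ * b⁻¹ ∈ M') : Group.IsSolvable (G ⧸ M') := by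
  let N : Subgroup (G ⧸ M') := M.map (QuotientGroup.mk' M')
  have hN : Group.IsSolvable N := by
    refine Group.isSolvable_of_comm ?_
    rintro ⟨_, a, ha, rfl⟩ ⟨_, b, hb, rfl⟩
    apply Subtype.ext
    change ((a * b : G) : G ⧸ M') = ((b * a : G) : G ⧸ M')
    rw [eq_comm, QuotientGroup.eq]
    have h1 := hc a⁻¹ (M.inv_mem ha) b⁻¹ (M.inv_mem hb)
    have h2 : (b * a)⁻¹ * (a * b) = a⁻¹ * b⁻¹ * a⁻¹⁻¹ * b⁻¹⁻¹ := by group
    rw [h2]
    exact h1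
  refine Group.isSolvable_of_ker_le_range N.subtype (QuotientGroup.map M' M (MonoidHom.id G) hle) ?_
  intro x hx
  obtain ⟨g, rfl⟩ := QuotientGroup.mk_surjective x
  have h1 : ((g : G) : G ⧸ M) = 1 := hx
  have h2 : g ∈ M := (QuotientGroup.eq_one_iff g).1 h1
  exact ⟨⟨_, g, h2, rfl⟩, rfl⟩

end Gen

variable (F : IntermediateField ℚ Qb)

/-- The conditions on a system of normal subgroups. -/
def GoodSys (D : Sys (GF F)) : Prop :=
  D.S = CF F ∧ D.N ⊆ NF F ∧ (∀ M ∈ D.N, ∀ M' : Subgroup (GF F), M'.Normal → M ≤ M' → M' ∈ D.N) ∧ NtU D ∧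
    ∃ θ : GF F →* ℂˣ, Sgn D θ

theorem theta_F (hF : FiniteDimensional ℚ F) : ∃ θ : GF F →* ℂˣ, (∃ M ∈ NF F, ∀ g ∈ M, θ g = 1) ∧
    (∀ s ∈ CF F, θ s = -1) ∧ ∀ g, θ g * θ g = 1 := by
  obtain ⟨x, ⟨M, hM, hx1⟩, hx2⟩ := nt_F F hF (CF F) subset_rfl fun s hs u => cc_conj hs (u : GQ)
  let θ : GF F →* ℂˣ := (Units.map ((Int.castRingHom ℂ : ℤ →+* ℂ) : ℤ →* ℂ)).comp x
  have hθ : ∀ g, ((θ g : ℂˣ) : ℂ) = (((x g : ℤˣ) : ℤ) : ℂ) := fun g => rfl
  refine ⟨θ, ⟨M, hM, fun g hg => ?_⟩, fun s hs => ?_, fun g => ?_⟩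
  · apply Units.ext
    rw [hθ, hx1 g hg]
    simp
  · apply Units.ext
    rw [hθ, (hx2 s hs).2 hs]
    simp
  · rw [← map_mul]
    have : x (g * g) = 1 := by
      rw [map_mul]
      rcases Int.units_eq_one_or (x g) with h | h
      · rw [h]; rfl
      · rw [h]; rfl
    apply Units.ext
    rw [hθ, this]
    simp

theorem good_all (hF : FiniteDimensional ℚ F) : ∃ D : Sys (GF F), GoodSys F D ∧ D.N = NF F := by
  obtain ⟨⟨D, hDS, hDN⟩, -, -⟩ := exists_sysF F hF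
  obtain ⟨θ, h1, h2, -⟩ := theta_F F hF
  refine ⟨D, ⟨hDS, hDN.le, ?_, ?_, θ, ?_⟩, hDN⟩
  · rw [hDN]
    rintro M ⟨-, ho⟩ M' hn hle
    exact ⟨hn, Subgroup.isOpen_mono hle ho⟩
  · intro M hM U hU κ hκ hκU hinv
    rw [hDN] at hM ⊢
    rw [hDS] at hκ ⊢
    obtain ⟨M', hM', hle, -, -, x, hx1, hx2⟩ := ntF_all F hF hM U hU κ hκ hκU hinv
    exact ⟨M', hM', hle, x, hx1, hx2⟩
  · refine ⟨?_, ?_⟩
    · rw [hDN]; exact h1
    · rw [hDS]; exact h2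

theorem good_sol (hF : FiniteDimensional ℚ F) : ∃ D : Sys (GF F), GoodSys F D ∧ D.N = NFSol F := by
  obtain ⟨-, ⟨D, hDS, hDN⟩, -⟩ := exists_sysF F hF
  obtain ⟨θ, ⟨Mθ, hMθ, h1⟩, h2, h3⟩ := theta_F F hF
  refine ⟨D, ⟨hDS, hDN.le.trans fun M hM => hM.1, ?_, ?_, θ, ?_⟩, hDN⟩
  · rw [hDN]
    rintro M ⟨⟨-, ho⟩, hMn, hs⟩ M' hn hle
    refine ⟨⟨hn, Subgroup.isOpen_mono hle ho⟩, hn, ?_⟩
    refine Group.isSolvable_of_surjective (f := QuotientGroup.map M M' (MonoidHom.id _) hle) fun x => ?_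
    obtain ⟨g, rfl⟩ := QuotientGroup.mk_surjective x
    exact ⟨(g : GF F ⧸ M), rfl⟩
  · intro M hM U hU κ hκ hκU hinv
    rw [hDN] at hM ⊢
    rw [hDS] at hκ ⊢
    obtain ⟨M', hM', hle, -, hc, x, hx1, hx2⟩ := ntF_all F hF hM.1 U hU κ hκ hκU hinv
    obtain ⟨hMA, hMn, hs⟩ := hM
    have hM'n : M'.Normal := hM'.1
    exact ⟨M', ⟨hM', hM'n, solExt_K M M' hs hle hc⟩, hle, x, hx1, hx2⟩
  · refine ⟨?_, ?_⟩
    · rw [hDN]
      refine ⟨θ.ker, ⟨⟨inferInstance, Subgroup.isOpen_mono (fun g hg => h1 g hg) hMθ.2⟩, inferInstance, ?_⟩,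
        fun g hg => hg⟩
      refine Group.isSolvable_of_comm ?_
      intro a b
      obtain ⟨a, rfl⟩ := QuotientGroup.mk_surjective a
      obtain ⟨b, rfl⟩ := QuotientGroup.mk_surjective b
      change ((a * b : GF F) : GF F ⧸ θ.ker) = ((b * a : GF F) : GF F ⧸ θ.ker)
      rw [QuotientGroup.eq, MonoidHom.mem_ker, map_mul, map_inv, map_mul, map_mul, mul_comm (θ b), inv_mul_cancel]
    · rw [hDS]; exact h2

/-- A statement for good systems containing the kernels, over number fields. -/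
theorem some_F (hF : FiniteDimensional ℚ F) {d : ℕ} (ρ ρ' : Rp (GF F) d) (hρ : Continuous ρ) (hρ' : Continuous ρ')
    (P : Subgroup (GF F) → Prop)
    (key : ∀ D : Sys (GF F), GoodSys F D → ρ.ker ⊓ ρ'.ker ∈ D.N → ∃ M ∈ D.N, P M) :
    ∃ K : IntermediateField F Qb, FinGal F K ∧ (SolIm ρ → SolIm ρ' → SolGal F K) ∧ P (galIn F K) := by
  obtain ⟨D, hD, hDN⟩ := good_all F hF
  have hk : ρ.ker ⊓ ρ'.ker ∈ NF F := by
    have h1 := ker_F F hF ρ hρ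
    have h2 := ker_F F hF ρ' hρ'
    rw [← hDN] at h1 h2 ⊢
    exact D.inf _ h1 _ h2
  obtain ⟨hsol, -⟩ := quot_F F ρ ρ' hk
  by_cases hs : SolIm ρ ∧ SolIm ρ'
  · obtain ⟨D₁, hD₁, hDN₁⟩ := good_sol F hF
    obtain ⟨M, hM, hP⟩ := key D₁ hD₁ (by rw [hDN₁]; exact hsol hs.1 hs.2)
    rw [hDN₁] at hM
    obtain ⟨K, hK, hMK, h1, -⟩ := field_of F hF hM.1
    exact ⟨K, hK, fun _ _ => h1 hM, hMK ▸ hP⟩
  · obtain ⟨M, hM, hP⟩ := key D hD (by rw [hDN]; exact hk)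
    rw [hDN] at hM
    obtain ⟨K, hK, hMK, -, -⟩ := field_of F hF hM
    exact ⟨K, hK, fun a b => absurd ⟨a, b⟩ hs, hMK ▸ hP⟩

theorem galIn_NF (hF : FiniteDimensional ℚ F) {K : IntermediateField F Qb} (hK : FinGal F K) : galIn F K ∈ NF F := by
  obtain ⟨hfd, hgal⟩ := hK
  have hn : Normal F K := (isGalois_iff.1 hgal).2
  constructor
  · refine ⟨fun n hn' g => ?_⟩
    intro x hx
    have h1 : ((g⁻¹ : GF F) : GQ) x ∈ K := by
      let σ : Qb ≃ₐ[F] Qb := IntermediateField.fixingSubgroupEquiv F g⁻¹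
      have h2 := IntermediateField.normal_iff_forall_map_le'.1 hn σ
      exact h2 ⟨x, hx, rfl⟩
    change (g : GQ) ((n : GQ) (((g⁻¹ : GF F) : GQ) x)) = x
    rw [hn' _ h1]
    change ((g * g⁻¹ : GF F) : GQ) x = x
    rw [mul_inv_cancel]
    rfl
  · let K' : IntermediateField ℚ Qb := K.restrictScalars ℚ
    have hKQ : FiniteDimensional ℚ K := FiniteDimensional.trans ℚ F K
    have hK' : FiniteDimensional ℚ K' := hKQ
    have h1 : IsOpen (K'.fixingSubgroup : Set GQ) := IntermediateField.fixingSubgroup_isOpen K'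
    have h2 : (galIn F K : Set (GF F)) = Subtype.val ⁻¹' (K'.fixingSubgroup : Set GQ) := by
      ext g
      change (∀ x ∈ K, (g : GQ) x = x) ↔ (g : GQ) ∈ K'.fixingSubgroup
      rw [IntermediateField.mem_fixingSubgroup_iff]
      rfl
    rw [h2]
    exact h1.preimage continuous_subtype_val

end SB
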