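import Pool.Agent.Helper68.OPF.K

/-!
# OPF-Z: the theorems over a number field
-/

namespace SB

variable (F : IntermediateField ℚ Qb)

theorem z_iff (hF : FiniteDimensional ℚ F) {d : ℕ} (ρ : Rp (GF F) d) (hρ : Continuous ρ) :
    OddSums (CF F) ρ ↔ ∃ K : IntermediateField F Qb, FinGal F K ∧ (SolIm ρ → SolGal F K) ∧
      LinComb (CF F) (galIn F K) (chr ρ) := by
  constructor
  · intro ho
    obtain ⟨K, hK, h1, h2⟩ := some_F F hF ρ ρ hρ hρ (fun N => LinComb (CF F) N (chr ρ)) fun D hD hk => by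
      obtain ⟨hS, hN, hup, hnt, θ, hθ⟩ := hD
      rw [← hS] at ho ⊢
      exact (gen_iff D hup hnt hθ hk ρ fun g hg => hg.1).1 ho
    exact ⟨K, hK, fun h => h1 h h, h2⟩
  · rintro ⟨K, hK, -, h⟩
    obtain ⟨D, ⟨hS, -, hup, hnt, θ, hθ⟩, hN⟩ := good_all F hF
    rw [← hS] at h ⊢
    have hk : ρ.ker ∈ D.N := by rw [hN]; exact ker_F F hF ρ hρ
    exact (gen_iff D hup hnt hθ hk ρ fun g hg => hg).2 ⟨_, by rw [hN]; exact galIn_NF F hF hK, h⟩

theorem z_line_iff (hF : FiniteDimensional ℚ F) {d : ℕ} (ρ : Rp (GF F) d) (hρ : Continuous ρ) :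
    LineSums (CF F) ρ ↔ ∃ K : IntermediateField F Qb, FinGal F K ∧ (SolIm ρ → SolGal F K) ∧
      OddComb (CF F) (galIn F K) (chr ρ) := by
  constructor
  · intro ho
    obtain ⟨K, hK, h1, h2⟩ := some_F F hF ρ ρ hρ hρ (fun N => OddComb (CF F) N (chr ρ)) fun D hD hk => by
      obtain ⟨hS, hN, hup, hnt, θ, hθ⟩ := hD
      rw [← hS] at ho ⊢
      exact (gen_line_iff D hup hnt hθ hk ρ fun g hg => hg.1).1 ho
    exact ⟨K, hK, fun h => h1 h h, h2⟩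
  · rintro ⟨K, hK, -, h⟩
    obtain ⟨D, ⟨hS, -, hup, hnt, θ, hθ⟩, hN⟩ := good_all F hF
    rw [← hS] at h ⊢
    have hk : ρ.ker ∈ D.N := by rw [hN]; exact ker_F F hF ρ hρ
    exact (gen_line_iff D hup hnt hθ hk ρ fun g hg => hg).2 ⟨_, by rw [hN]; exact galIn_NF F hF hK, h⟩

theorem quadComb_mono {Γ : Type*} [Group Γ] {S : Set Γ} {N N' : Subgroup Γ} (hN : N' ≤ N) {v : Γ → ℂ}
    (h : QuadComb S N v) : QuadComb S N' v := by
  obtain ⟨w, w', h1, h2, h3⟩ := h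
  exact ⟨w, w', sigQuad_mono hN h1, planeComb_mono_H hN h2, h3⟩

theorem z_pair (hF : FiniteDimensional ℚ F) {d : ℕ} (ρ ρ' : Rp (GF F) d) (h : EqAt (CF F) ρ ρ')
    (ho : OddSums (CF F) ρ) (ho' : OddSums (CF F) ρ') :
    ∃ K : IntermediateField F Qb, FinGal F K ∧ (SolIm ρ → SolIm ρ' → SolGal F K) ∧
      QuadComb (CF F) (galIn F K) (fun g => chr ρ g - chr ρ' g) ∧
      (OneClass (CF F) → PlaneComb (CF F) (galIn F K) (fun g => chr ρ g - chr ρ' g)) := by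
  refine some_F F hF ρ ρ' h.1 h.2.1 (fun N => QuadComb (CF F) N (fun g => chr ρ g - chr ρ' g) ∧
      (OneClass (CF F) → PlaneComb (CF F) N (fun g => chr ρ g - chr ρ' g))) fun D hD hk => ?_
  obtain ⟨hS, hN, hup, hnt, θ, hθ⟩ := hD
  have hc := h.2.2
  rw [← hS] at ho ho' hc ⊢
  obtain ⟨M, hM, h1⟩ := gen_pair D hup hnt hθ hk ρ ρ' (fun g hg => hg.1) (fun g hg => hg.2) ho ho' hc
  by_cases hone : OneClass D.S
  · obtain ⟨M', hM', h2⟩ := gen_pair_one D hup hnt hone hθ hk ρ ρ' (fun g hg => hg.1) (fun g hg => hg.2) ho ho' hc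
    exact ⟨M ⊓ M', D.inf _ hM _ hM', quadComb_mono inf_le_left h1, fun _ => planeComb_mono_H inf_le_right h2⟩
  · exact ⟨M, hM, h1, fun h => absurd h hone⟩

theorem z_line_pair (hF : FiniteDimensional ℚ F) {d : ℕ} (ρ ρ' : Rp (GF F) d) (h : EqAt (CF F) ρ ρ')
    (ho : LineSums (CF F) ρ) (ho' : LineSums (CF F) ρ') {k : ℕ}
    (hk : ∀ p : ℕ, p.Prime → p ≠ 2 → p ∣ (Subgroup.closure (CF F) ⊔ (ρ.ker ⊓ ρ'.ker)).index → p ∣ k) :
    ∃ K : IntermediateField F Qb, FinGal F K ∧ (SolIm ρ → SolIm ρ' → SolGal F K) ∧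
      QuadComb (CF F) (galIn F K) (fun g => (k : ℂ) * (chr ρ g - chr ρ' g)) := by
  refine some_F F hF ρ ρ' h.1 h.2.1 (fun N => QuadComb (CF F) N (fun g => (k : ℂ) * (chr ρ g - chr ρ' g)))
    fun D hD hker => ?_
  obtain ⟨hS, hN, hup, hnt, θ, hθ⟩ := hD
  have hc := h.2.2
  rw [← hS] at ho ho' hc hk ⊢
  exact gen_line_pair D hup hnt hθ hker ρ ρ' (fun g hg => hg.1) (fun g hg => hg.2) ho ho' hc hk

end SB
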